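import Pool.Agent.Helper15.GS.GoalsE

/-!
# RBC: compact Kähler manifolds with a Hermitian metric of nonpositive real bisectional curvature

Block 1 (helper57): existence of the twisted Kähler–Einstein metrics for every background metric of the
family `H + N rho H + LM φ`, the sharp monotone bound, and the minimising sequences. Conventions of
`Helper57/HS/Defs.lean`.
-/

open Complex Metric Set Filter Topology MeasureTheory
open scoped ContDiff ComplexConjugate ComplexOrder Manifold Matrix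

namespace Pool.Agent.Helper57.RBC

open Pool.Agent.Helper95.Lin Pool.Agent.Helper16.Abund Pool.Agent.Helper92.Orb
  Pool.Agent.Helper10.SP Pool.Agent.Helper95.RK Pool.Agent.Helper57.HS
  Pool.Agent.Helper15.HS

universe u v

/-- `H` is an invariant Kähler metric, `h` an invariant Hermitian metric with nonpositive real
bisectional curvature. -/
structure RDat {n : ℕ} (T : Set (Cn n)) {G : Type u} [Group G] (R : G → Cn n → Cn n → Prop)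
    (H h : Cn n → Matrix (Fin n) (Fin n) ℂ) : Prop where
  ket : KEt T R H
  her : HerT T R h
  rbc : RBC h T

/-- `H'` is an invariant Kähler metric of the form `H + N rho H + LM φ`, `N ≥ 0`, `φ` invariant. -/
structure Fam {n : ℕ} (T : Set (Cn n)) {G : Type u} [Group G] (R : G → Cn n → Cn n → Prop)
    (H : Cn n → Matrix (Fin n) (Fin n) ℂ) (N : ℝ) (φ : Cn n → ℝ)
    (H' : Cn n → Matrix (Fin n) (Fin n) ℂ) : Prop where
  ket : KEt T R H'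
  nn : 0 ≤ N
  inv : InvF T R φ
  eq : ∀ x ∈ T, H' x = H x + (N : ℂ) • rho H x + LM φ x

/-- `tr (h H'⁻¹) ≤ s` on `T`. -/
def SupB {n : ℕ} (T : Set (Cn n)) (h H' : Cn n → Matrix (Fin n) (Fin n) ℂ) (s : ℝ) : Prop :=
  ∀ x ∈ T, (Matrix.trace (h x * (H' x)⁻¹)).re ≤ s

/-- The minimising sequences: `H' j` is a metric of the family with `tr (h (H' j)⁻¹) ≤ S j`, `S j → s`,
`s` is a lower bound of all such suprema, `Q j` is the twisted Kähler–Einstein metric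
`rho (Q j) = Q j - ε j H' j`, and `ε j` is small compared with `H' j`. -/
structure SeqR {n : ℕ} (T : Set (Cn n)) {G : Type u} [Group G] (R : G → Cn n → Cn n → Prop)
    (H h : Cn n → Matrix (Fin n) (Fin n) ℂ) (s : ℝ) (S N : ℕ → ℝ) (φ : ℕ → Cn n → ℝ)
    (H' : ℕ → Cn n → Matrix (Fin n) (Fin n) ℂ) (ε : ℕ → ℝ)
    (Q : ℕ → Cn n → Matrix (Fin n) (Fin n) ℂ) : Prop where
  nn : 0 ≤ s
  S_ge : ∀ j, s ≤ S j
  S_le : ∀ j, S j ≤ s + 1 / ((j : ℝ) + 1)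
  fam : ∀ j, Fam T R H (N j) (φ j) (H' j)
  sup : ∀ j, SupB T h (H' j) (S j)
  eps : ∀ j, 0 < ε j
  eps_le : ∀ j, ε j ≤ 1 / ((j : ℝ) + 1)
  epsN : ∀ j, ε j * N j ≤ 1 / ((j : ℝ) + 1)
  epsφ : ∀ j, ∀ x ∈ T, ε j * |φ j x| ≤ 1 / ((j : ℝ) + 1)
  epsH : ∀ j, ∀ x ∈ T, (H x - (ε j : ℂ) • H' j x).PosSemidef
  tke : ∀ j, TKE T R (H' j) (ε j) (Q j)
  m_le : ∀ j, ∀ x ∈ T, ε j * (Matrix.trace (h x * (Q j x)⁻¹)).re ≤ S j
  m_ge : ∀ j, ∃ x ∈ T, s ≤ ε j * (Matrix.trace (h x * (Q j x)⁻¹)).re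

/-- REX. Existence of the twisted Kähler–Einstein metrics (as GEX). -/
def S_REX : Prop := ∀ {n : ℕ} (T : Set (Cn n)) {G : Type u} [Group G]
  (R : G → Cn n → Cn n → Prop) (H h : Cn n → Matrix (Fin n) (Fin n) ℂ), RDat T R H h →
  ∀ ε : ℝ, 0 < ε → ∃ Q, TKE T R H ε Q

/-- RMON. The sharp bound. At a maximum of `t = tr (h Q⁻¹)`: `0 ≥ - t + ε tr (H Q⁻¹ h Q⁻¹)` and
`t² ≤ tr (H Q⁻¹ h Q⁻¹) tr (h H⁻¹)`. -/
def S_RMON : Prop := ∀ {n : ℕ} (T : Set (Cn n)) {G : Type u} [Group G]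
  (R : G → Cn n → Cn n → Prop) (H h : Cn n → Matrix (Fin n) (Fin n) ℂ), RDat T R H h →
  ∀ s : ℝ, SupB T h H s → ∀ (ε : ℝ) (Q : Cn n → Matrix (Fin n) (Fin n) ℂ), 0 < ε →
  TKE T R H ε Q → ∀ x ∈ T, ε * (Matrix.trace (h x * (Q x)⁻¹)).re ≤ s

/-- RFAM. `Q/ε` is in the family. -/
def S_RFAM : Prop := ∀ {n : ℕ} (T : Set (Cn n)) {G : Type u} [Group G]
  (R : G → Cn n → Cn n → Prop) (H : Cn n → Matrix (Fin n) (Fin n) ℂ), KEt T R H →
  ∀ (N : ℝ) (φ : Cn n → ℝ) (H' : Cn n → Matrix (Fin n) (Fin n) ℂ), Fam T R H N φ H' →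
  ∀ (ε : ℝ) (Q : Cn n → Matrix (Fin n) (Fin n) ℂ), 0 < ε → TKE T R H' ε Q →
  Fam T R H (N + ε⁻¹) (fun x => φ x + ε⁻¹ * (ld Q x - ld H x)) (fun x => ((ε⁻¹ : ℝ) : ℂ) • Q x) ∧
  ∀ x ∈ T, Q x = (ε : ℂ) • H x + ((1 + ε * N : ℝ) : ℂ) • rho H x +
    LM (fun y => ε * φ y + (ld Q y - ld H y)) x

/-- RSEQ. The minimising sequences. -/
def S_RSEQ : Prop := ∀ {n : ℕ} (T : Set (Cn n)) {G : Type u} [Group G]
  (R : G → Cn n → Cn n → Prop) (H h : Cn n → Matrix (Fin n) (Fin n) ℂ), RDat T R H h →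
  ∃ (s : ℝ) (S N : ℕ → ℝ) (φ : ℕ → Cn n → ℝ) (H' : ℕ → Cn n → Matrix (Fin n) (Fin n) ℂ)
    (ε : ℕ → ℝ) (Q : ℕ → Cn n → Matrix (Fin n) (Fin n) ℂ), SeqR T R H h s S N φ H' ε Q

end Pool.Agent.Helper57.RBC
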