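import Pool.Agent.Helper57.RBC.Goals2
import Mathlib.Analysis.Matrix.Order

/-!
# RBC: linear algebra of the torsion
-/

open Complex Metric Set Filter Topology MeasureTheory
open scoped ContDiff ComplexConjugate ComplexOrder Manifold Matrix Kronecker

namespace Pool.Agent.Helper57.RBC

open Pool.Agent.Helper95.Lin Pool.Agent.Helper16.Abund Pool.Agent.Helper92.Orb
  Pool.Agent.Helper10.SP Pool.Agent.Helper95.RK Pool.Agent.Helper57.HS
  Pool.Agent.Helper15.HS

universe u

variable {n : ℕ}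

/-- The Hermitian form of a tensor with three indices. -/
noncomputable def FT (T : Fin n → Fin n → Fin n → ℂ) (U V W : Matrix (Fin n) (Fin n) ℂ) : ℂ :=
  ∑ k, ∑ l, ∑ i, ∑ j, ∑ q, ∑ p, U l k * V j i * W p q * (T k i p * conj (T l j q))

theorem sum6 (f : Fin n → Fin n → Fin n → Fin n → Fin n → Fin n → ℂ) :
    ∑ l, ∑ j, ∑ q, ∑ k, ∑ i, ∑ p, f l j q k i p =
      ∑ k, ∑ l, ∑ i, ∑ j, ∑ q, ∑ p, f l j q k i p := by
  calc ∑ l, ∑ j, ∑ q, ∑ k, ∑ i, ∑ p, f l j q k i p
      = ∑ l, ∑ j, ∑ k, ∑ q, ∑ i, ∑ p, f l j q k i p := by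
        refine Finset.sum_congr rfl fun l _ => Finset.sum_congr rfl fun j _ => ?_
        exact Finset.sum_comm
    _ = ∑ l, ∑ k, ∑ j, ∑ q, ∑ i, ∑ p, f l j q k i p := by
        refine Finset.sum_congr rfl fun l _ => ?_
        exact Finset.sum_comm
    _ = ∑ k, ∑ l, ∑ j, ∑ q, ∑ i, ∑ p, f l j q k i p := Finset.sum_comm
    _ = ∑ k, ∑ l, ∑ j, ∑ i, ∑ q, ∑ p, f l j q k i p := by
        refine Finset.sum_congr rfl fun k _ => Finset.sum_congr rfl fun l _ =>
          Finset.sum_congr rfl fun j _ => ?_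
        exact Finset.sum_comm
    _ = _ := by
        refine Finset.sum_congr rfl fun k _ => Finset.sum_congr rfl fun l _ => ?_
        exact Finset.sum_comm

/-- The vector of a tensor. -/
def tv (T : Fin n → Fin n → Fin n → ℂ) (a : Fin n × Fin n × Fin n) : ℂ := T a.1 a.2.1 a.2.2

theorem FT_quad (T : Fin n → Fin n → Fin n → ℂ) (U V W : Matrix (Fin n) (Fin n) ℂ) :
    FT T U V W = star (tv T) ⬝ᵥ ((U ⊗ₖ (V ⊗ₖ Wᵀ)) *ᵥ tv T) := by
  unfold FT
  rw [← sum6 (fun l j q k i p => U l k * V j i * W p q * (T k i p * conj (T l j q)))]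
  simp only [dotProduct, Matrix.mulVec, Fintype.sum_prod_type, Finset.mul_sum, Pi.star_apply,
    Matrix.kroneckerMap_apply, Matrix.transpose_apply, tv]
  refine Finset.sum_congr rfl fun l _ => Finset.sum_congr rfl fun j _ =>
    Finset.sum_congr rfl fun q _ => Finset.sum_congr rfl fun k _ =>
    Finset.sum_congr rfl fun i _ => Finset.sum_congr rfl fun p _ => ?_
  rw [Complex.star_def]
  ring

theorem FT_nonneg (T : Fin n → Fin n → Fin n → ℂ) {U V W : Matrix (Fin n) (Fin n) ℂ}
    (hU : U.PosSemidef) (hV : V.PosSemidef) (hW : W.PosSemidef) : 0 ≤ FT T U V W := by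
  rw [FT_quad]
  exact (hU.kronecker (hV.kronecker hW.transpose)).dotProduct_mulVec_nonneg _

theorem FT_zero (T : Fin n → Fin n → Fin n → ℂ) {U V W : Matrix (Fin n) (Fin n) ℂ}
    (hU : U.PosSemidef) (hV : V.PosDef) (hW : W.PosDef) (h : (FT T U V W).re ≤ 0)
    (l i p : Fin n) : ∑ k, U l k * T k i p = 0 := by
  have h0 := FT_nonneg T hU hV.posSemidef hW.posSemidef
  have h1 : FT T U V W = 0 := by
    rw [Complex.nonneg_iff] at h0
    exact Complex.ext (le_antisymm h h0.1) h0.2.symm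
  rw [FT_quad] at h1
  have hM := hU.kronecker (hV.posSemidef.kronecker hW.posSemidef.transpose)
  have h2 := (hM.dotProduct_mulVec_zero_iff _).1 h1
  set S : Matrix (Fin n) (Fin n) ℂ := Matrix.of fun i p => ∑ k, U l k * T k i p with hS
  have h3 : V * S * W = 0 := by
    ext j q
    have h4 := congrFun h2 (l, j, q)
    simp only [Matrix.mulVec, dotProduct, Fintype.sum_prod_type, Matrix.kroneckerMap_apply,
      Matrix.transpose_apply, tv, Pi.zero_apply] at h4
    rw [Matrix.zero_apply, ← h4, Matrix.mul_apply]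
    simp only [Matrix.mul_apply, hS, Matrix.of_apply, Finset.sum_mul, Finset.mul_sum]
    calc ∑ p, ∑ i, ∑ k, V j i * (U l k * T k i p) * W p q
        = ∑ i, ∑ p, ∑ k, V j i * (U l k * T k i p) * W p q := Finset.sum_comm
      _ = ∑ i, ∑ k, ∑ p, V j i * (U l k * T k i p) * W p q := by
          refine Finset.sum_congr rfl fun i _ => ?_
          exact Finset.sum_comm
      _ = ∑ k, ∑ i, ∑ p, V j i * (U l k * T k i p) * W p q := Finset.sum_comm
      _ = _ := by
          refine Finset.sum_congr rfl fun k _ => Finset.sum_congr rfl fun i _ =>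
            Finset.sum_congr rfl fun p _ => ?_
          ring
  have hVu : IsUnit V.det := (Matrix.isUnit_iff_isUnit_det V).1 hV.isUnit
  have hWu : IsUnit W.det := (Matrix.isUnit_iff_isUnit_det W).1 hW.isUnit
  have h5 : S = 0 := by
    calc S = (V⁻¹ * V) * S * (W * W⁻¹) := by
          rw [Matrix.nonsing_inv_mul _ hVu, Matrix.mul_nonsing_inv _ hWu, Matrix.one_mul,
            Matrix.mul_one]
      _ = V⁻¹ * (V * S * W) * W⁻¹ := by simp only [Matrix.mul_assoc]
      _ = 0 := by rw [h3, Matrix.mul_zero, Matrix.zero_mul]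
  have h6 := congrFun (congrFun h5 i) p
  rw [hS, Matrix.of_apply, Matrix.zero_apply] at h6
  exact h6

theorem FT_left (T : Fin n → Fin n → Fin n → ℂ) (U U' V W : Matrix (Fin n) (Fin n) ℂ) (c : ℂ) :
    FT T (c • U - U') V W = c * FT T U V W - FT T U' V W := by
  unfold FT
  simp only [Finset.mul_sum, ← Finset.sum_sub_distrib]
  refine Finset.sum_congr rfl fun k _ => Finset.sum_congr rfl fun l _ =>
    Finset.sum_congr rfl fun i _ => Finset.sum_congr rfl fun j _ =>
    Finset.sum_congr rfl fun q _ => Finset.sum_congr rfl fun p _ => ?_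
  rw [Matrix.sub_apply, Matrix.smul_apply, smul_eq_mul]
  ring

theorem FT_right (T : Fin n → Fin n → Fin n → ℂ) (U V V' W : Matrix (Fin n) (Fin n) ℂ) (c : ℂ) :
    FT T U (c • V - V') W = c * FT T U V W - FT T U V' W := by
  unfold FT
  simp only [Finset.mul_sum, ← Finset.sum_sub_distrib]
  refine Finset.sum_congr rfl fun k _ => Finset.sum_congr rfl fun l _ =>
    Finset.sum_congr rfl fun i _ => Finset.sum_congr rfl fun j _ =>
    Finset.sum_congr rfl fun q _ => Finset.sum_congr rfl fun p _ => ?_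
  rw [Matrix.sub_apply, Matrix.smul_apply, smul_eq_mul]
  ring

theorem FT_smul (T : Fin n → Fin n → Fin n → ℂ) (U V W : Matrix (Fin n) (Fin n) ℂ) (c : ℂ) :
    FT T (c • U) V W = c * FT T U V W := by
  have h := FT_left T U 0 V W c
  have h0 : FT T 0 V W = 0 := by
    unfold FT
    simp
  rw [sub_zero, h0, sub_zero] at h
  exact h

theorem FT_swap (T : Fin n → Fin n → Fin n → ℂ) (U V W : Matrix (Fin n) (Fin n) ℂ) :
    FT (fun k i p => T i k p) U V W = FT T V U W := by
  unfold FT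
  calc ∑ k, ∑ l, ∑ i, ∑ j, ∑ q, ∑ p, U l k * V j i * W p q * (T i k p * conj (T j l q))
      = ∑ k, ∑ i, ∑ l, ∑ j, ∑ q, ∑ p, U l k * V j i * W p q * (T i k p * conj (T j l q)) := by
        refine Finset.sum_congr rfl fun k _ => ?_
        exact Finset.sum_comm
    _ = ∑ i, ∑ k, ∑ l, ∑ j, ∑ q, ∑ p, U l k * V j i * W p q * (T i k p * conj (T j l q)) :=
        Finset.sum_comm
    _ = ∑ i, ∑ k, ∑ j, ∑ l, ∑ q, ∑ p, U l k * V j i * W p q * (T i k p * conj (T j l q)) := by
        refine Finset.sum_congr rfl fun i _ => Finset.sum_congr rfl fun k _ => ?_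
        exact Finset.sum_comm
    _ = ∑ i, ∑ j, ∑ k, ∑ l, ∑ q, ∑ p, U l k * V j i * W p q * (T i k p * conj (T j l q)) := by
        refine Finset.sum_congr rfl fun i _ => ?_
        exact Finset.sum_comm
    _ = _ := by
        refine Finset.sum_congr rfl fun i _ => Finset.sum_congr rfl fun j _ =>
          Finset.sum_congr rfl fun k _ => Finset.sum_congr rfl fun l _ =>
          Finset.sum_congr rfl fun q _ => Finset.sum_congr rfl fun p _ => ?_
        ring

theorem FT_sub_le (A B : Fin n → Fin n → Fin n → ℂ) {U V W : Matrix (Fin n) (Fin n) ℂ}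
    (hU : U.PosSemidef) (hV : V.PosSemidef) (hW : W.PosSemidef) :
    (FT (fun k i p => B k i p - A k i p) U V W).re ≤ 2 * (FT A U V W).re + 2 * (FT B U V W).re := by
  have h1 : FT (fun k i p => B k i p - A k i p) U V W + FT (fun k i p => B k i p + A k i p) U V W =
      2 * FT A U V W + 2 * FT B U V W := by
    unfold FT
    simp only [Finset.mul_sum, ← Finset.sum_add_distrib]
    refine Finset.sum_congr rfl fun k _ => Finset.sum_congr rfl fun l _ =>
      Finset.sum_congr rfl fun i _ => Finset.sum_congr rfl fun j _ =>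
      Finset.sum_congr rfl fun q _ => Finset.sum_congr rfl fun p _ => ?_
    rw [map_sub, map_add]
    ring
  have h2 := FT_nonneg (fun k i p => B k i p + A k i p) hU hV hW
  have h3 := (Complex.nonneg_iff.1 h2).1
  have h4 := congrArg Complex.re h1
  simp only [Complex.add_re, Complex.mul_re, Complex.re_ofNat, Complex.im_ofNat, zero_mul,
    sub_zero] at h4
  linarith

/-- `AAt` as a Hermitian form. -/
theorem AAt_eq (h Q : Cn n → Matrix (Fin n) (Fin n) ℂ) (x : Cn n) :
    AAt h Q x = (FT (fun k i p => Adf h Q k x i p) (Q x)⁻¹ (Q x)⁻¹ (h x)).re := by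
  unfold AAt FT
  congr 1
  refine Finset.sum_congr rfl fun k _ => Finset.sum_congr rfl fun l _ => ?_
  rw [Matrix.trace, Finset.mul_sum]
  refine Finset.sum_congr rfl fun i _ => ?_
  rw [Matrix.diag_apply, Matrix.mul_apply, Finset.mul_sum]
  refine Finset.sum_congr rfl fun j _ => ?_
  rw [Matrix.mul_apply, Finset.sum_mul, Finset.mul_sum]
  refine Finset.sum_congr rfl fun q _ => ?_
  rw [Matrix.mul_apply, Finset.sum_mul, Finset.sum_mul, Finset.mul_sum]
  refine Finset.sum_congr rfl fun p _ => ?_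
  rw [Matrix.conjTranspose_apply, Complex.star_def]
  ring

/-- The torsion. -/
noncomputable def tors (h : Cn n → Matrix (Fin n) (Fin n) ℂ) (x : Cn n) (k i p : Fin n) : ℂ :=
  Gam h k x i p - Gam h i x k p

theorem Gam_symm {T : Set (Cn n)} {Q : Cn n → Matrix (Fin n) (Fin n) ℂ} (hQ : CHF Q T)
    {x : Cn n} (hx : x ∈ T) (k i p : Fin n) : Gam Q k x i p = Gam Q i x k p := by
  unfold Gam cdM
  rw [Matrix.mul_apply, Matrix.mul_apply]
  refine Finset.sum_congr rfl fun m _ => ?_
  rw [Matrix.of_apply, Matrix.of_apply, hQ.closed x hx i m k]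

/-- The torsion is bounded by `AAt`. -/
theorem tors_le {T : Set (Cn n)} {Q h : Cn n → Matrix (Fin n) (Fin n) ℂ} (hQ : CHF Q T)
    (hQp : ∀ x ∈ T, (Q x).PosDef) (hh : ∀ x ∈ T, (h x).PosDef) {x : Cn n} (hx : x ∈ T) :
    (FT (tors h x) (Q x)⁻¹ (Q x)⁻¹ (h x)).re ≤ 4 * AAt h Q x := by
  have hK := (hQp x hx).posSemidef.inv
  have h1 : tors h x = fun k i p => Adf h Q i x k p - Adf h Q k x i p := by
    funext k i p
    unfold tors Adf
    rw [Matrix.sub_apply, Matrix.sub_apply, Gam_symm hQ hx i k p]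
    ring
  have h2 := FT_sub_le (fun k i p => Adf h Q k x i p) (fun k i p => Adf h Q i x k p) hK hK
    (hh x hx).posSemidef
  have h3 := FT_swap (fun k i p => Adf h Q k x i p) (Q x)⁻¹ (Q x)⁻¹ (h x)
  rw [h1]
  refine h2.trans ?_
  have h4 : FT (fun k i p => Adf h Q i x k p) (Q x)⁻¹ (Q x)⁻¹ (h x) =
      FT (fun k i p => Adf h Q k x i p) (Q x)⁻¹ (Q x)⁻¹ (h x) := h3
  rw [h4, ← AAt_eq]
  linarith

end Pool.Agent.Helper57.RBC
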