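import Pool.Agent.Helper57.RBC.Goals3
import Pool.Agent.Helper57.RBC.Conc
import Pool.Agent.Helper94.GS.GDZ
import Pool.Agent.Helper62.HS.DBB
import Pool.Agent.Helper45.HS.MatC

/-!
# RBC: the weighted limit (RLC)
-/

open Complex Metric Set Filter Topology MeasureTheory
open scoped ContDiff ComplexConjugate ComplexOrder Manifold Matrix

namespace Pool.Agent.Helper57.RBC

open Pool.Agent.Helper95.Lin Pool.Agent.Helper16.Abund Pool.Agent.Helper92.Orb
  Pool.Agent.Helper10.SP Pool.Agent.Helper95.RK Pool.Agent.Helper57.HS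
  Pool.Agent.Helper15.HS Pool.Agent.Helper15.GS
open Pool.Agent.Helper10.RBC (dn)
open Pool.Agent.Helper95.HS (vol DensLe)
open Pool.Agent.Helper56.HS.DBZ (contM cont_det cont_inv cont_trace trace_nonneg)

universe u

theorem SeqR.sub {n : ℕ} {T : Set (Cn n)} {G : Type u} [Group G]
    {R : G → Cn n → Cn n → Prop} {H h : Cn n → Matrix (Fin n) (Fin n) ℂ} {s : ℝ}
    {S N : ℕ → ℝ} {φ : ℕ → Cn n → ℝ} {H' : ℕ → Cn n → Matrix (Fin n) (Fin n) ℂ} {ε : ℕ → ℝ}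
    {Q : ℕ → Cn n → Matrix (Fin n) (Fin n) ℂ} (hS : SeqR T R H h s S N φ H' ε Q)
    {ψ : ℕ → ℕ} (hψ : StrictMono ψ) :
    SeqR T R H h s (fun j => S (ψ j)) (fun j => N (ψ j)) (fun j => φ (ψ j))
      (fun j => H' (ψ j)) (fun j => ε (ψ j)) (fun j => Q (ψ j)) := by
  have hle : ∀ j, 1 / ((ψ j : ℝ) + 1) ≤ 1 / ((j : ℝ) + 1) := by
    intro j
    have h1 : (j : ℝ) ≤ (ψ j : ℝ) := by exact_mod_cast hψ.le_apply
    exact one_div_le_one_div_of_le (by positivity) (by linarith)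
  exact ⟨hS.nn, fun j => hS.S_ge _, fun j => (hS.S_le _).trans (by linarith [hle j]),
    fun j => hS.fam _, fun j => hS.sup _, fun j => hS.eps _,
    fun j => (hS.eps_le _).trans (hle j), fun j => (hS.epsN _).trans (hle j),
    fun j x hx => (hS.epsφ _ x hx).trans (hle j), fun j => hS.epsH _, fun j => hS.tke _,
    fun j => hS.m_le _, fun j => hS.m_ge _⟩

theorem Bep_scale {n : ℕ} (c ε : ℝ) (h Q : Cn n → Matrix (Fin n) (Fin n) ℂ) (x : Cn n)
    (a b : Fin n) : Bep (c * ε) h Q x a b = (c : ℂ) * Bep ε h Q x a b := by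
  unfold Bep
  rw [Matrix.smul_apply, Matrix.smul_apply, smul_eq_mul, smul_eq_mul]
  push_cast
  ring

/-- RLC. -/
theorem rlc (hRSEQ : S_RSEQ.{u}) (hRVC : S_RVC.{u}) (hRWT : S_RWT.{u}) (hRVD : S_RVD.{u})
    (hRAC : S_RAC.{u}) (hDBB : S_DBB.{u}) (hCMPG : S_CMPG.{u}) (hINVK : S_INVK.{u})
    (hLIMG : S_LIMG.{u}) (hLOWQ : S_LOWQ.{u}) : S_RLC.{u} := by
  intro n hn T G _ R H h D κ hκ
  have hTo := D.ket.et.isOpen
  obtain ⟨s, S₀, N₀, φ₀, H'₀, ε₀, Q₀, hS₀⟩ := hRSEQ T R H h D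
  obtain ⟨K, hK, hW1, hW2⟩ := hRWT hn T R H D.ket κ hκ
  have hW₀ := fun j => hW1 (ε₀ j) (H'₀ j) (Q₀ j) (seq_tkes hS₀ j)
  -- continuity
  have hHd : ∀ x ∈ T, (H x).det ≠ 0 := fun x hx => (D.ket.posDef x hx).det_pos.ne'
  have hhd : ∀ x ∈ T, (h x).det ≠ 0 := fun x hx => (D.her.posDef x hx).det_pos.ne'
  have hHc : ContinuousOn H T := contM D.ket.smooth
  have hhc : ContinuousOn h T := contM D.her.smooth
  have hher : ∀ j, HerT T R (Q₀ j) := fun j =>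
    ⟨(hS₀.tke j).ket.posDef, (hS₀.tke j).ket.smooth, (hS₀.tke j).ket.inv⟩
  have hexp : ∀ j, ∀ x ∈ T, Real.exp (Real.log (dn T κ H (Q₀ j) x)) = dn T κ H (Q₀ j) x :=
    fun j x hx => Real.exp_log ((hW₀ j).2.2.1 x hx).1
  have hdc : ∀ j, ContinuousOn (dn T κ H (Q₀ j)) T := by
    intro j
    have h1 := (hW₀ j).1.inv.1.continuousOn
    refine (Real.continuous_exp.comp_continuousOn h1).congr fun x hx => ?_
    exact (hexp j x hx).symm
  have hdinv : ∀ j γ x y, R γ x y → dn T κ H (Q₀ j) y = dn T κ H (Q₀ j) x := by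
    intro j γ x y hxy
    obtain ⟨hx, hy⟩ := D.ket.et.mem γ x y hxy
    have h1 : Real.log (dn T κ H (Q₀ j) y) = Real.log (dn T κ H (Q₀ j) x) :=
      (hW₀ j).1.inv.2 γ x y hxy
    rw [← hexp j x hx, ← hexp j y hy, h1]
  -- the functions
  have hV := fun j => hRVD T R (H'₀ j) h ⟨(hS₀.fam j).ket, D.her, D.rbc⟩ κ hκ (S₀ j) (ε₀ j)
    (Q₀ j) (hS₀.eps j) (hS₀.sup j) (hS₀.tke j)
  have hIK := fun j => hINVK T R D.ket.et h (Q₀ j) D.her (hher j)
  have hvlim := hRVC hn T R H h D κ hκ s S₀ N₀ φ₀ H'₀ ε₀ Q₀ hS₀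
  have hto : ∀ f : ℕ → Cn n → ℝ, (∀ j, ContinuousOn (f j) T) → (∀ j, ∀ x ∈ T, 0 ≤ f j x) →
      (∀ j γ x y, R γ x y → f j y = f j x) →
      Tendsto (fun j => avE T κ (Q₀ j) (f j)) atTop (𝓝 0) → ∀ C ⊆ T, IsCompact C →
      Tendsto (fun j => ∫ x in C, dn T κ H (Q₀ j) x * f j x) atTop (𝓝 0) := by
    intro f hfc hf0 hfi hfl C hC hCc
    obtain ⟨B, hB, hBl⟩ := hRAC T R H D.ket κ hκ C hC hCc
    have h1 := hfl.const_mul B
    rw [mul_zero] at h1
    refine squeeze_zero (fun j => ?_) (fun j => ?_) h1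
    · exact setIntegral_nonneg hCc.measurableSet fun x hx =>
        mul_nonneg ((hW₀ j).2.2.1 x (hC hx)).1.le (hf0 j x (hC hx))
    · exact hBl (Q₀ j) (hS₀.tke j).ket (f j) (hfc j) (hf0 j) (hfi j)
  have hle0 : ∀ f : ℕ → Cn n → ℝ, (∀ j, 0 ≤ avE T κ (Q₀ j) (f j)) →
      (∀ j, avE T κ (Q₀ j) (f j) ≤ avE T κ (Q₀ j) fun x =>
        S₀ j - ε₀ j * (Matrix.trace (h x * (Q₀ j x)⁻¹)).re) →
      Tendsto (fun j => avE T κ (Q₀ j) (f j)) atTop (𝓝 0) := fun f h0 h1 =>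
    squeeze_zero h0 h1 hvlim
  have hnn : ∀ j, ∀ f : Cn n → ℝ, (∀ x ∈ T, 0 ≤ f x) → 0 ≤ avE T κ (Q₀ j) f := by
    intro j f hf
    exact avE_nonneg hTo hκ.nonneg (fun x hx => (Complex.pos_iff.1
      ((hS₀.tke j).ket.posDef x hx).det_pos).1.le) hf
  have cv : ∀ C ⊆ T, IsCompact C → Tendsto (fun j => ∫ x in C, dn T κ H (Q₀ j) x *
      (S₀ j - ε₀ j * (Matrix.trace (h x * (Q₀ j x)⁻¹)).re)) atTop (𝓝 0) :=
    hto (fun j x => S₀ j - ε₀ j * (Matrix.trace (h x * (Q₀ j x)⁻¹)).re)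
      (fun j => (hV j).1.1.continuousOn) (fun j => (hV j).2.1) (fun j => (hV j).1.2) hvlim
  have ca : ∀ C ⊆ T, IsCompact C → Tendsto (fun j => ∫ x in C, dn T κ H (Q₀ j) x *
      (ε₀ j * AAt h (Q₀ j) x)) atTop (𝓝 0) :=
    hto (fun j x => ε₀ j * AAt h (Q₀ j) x)
      (fun j => continuousOn_const.mul (hIK j).2.1) (fun j x hx => ((hV j).2.2.2.1 x hx).1)
      (fun j γ x y hxy => by
        show ε₀ j * AAt h (Q₀ j) y = ε₀ j * AAt h (Q₀ j) x
        rw [((hIK j).2.2.1 γ x y hxy).2])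
      (hle0 _ (fun j => hnn j _ fun x hx => ((hV j).2.2.2.1 x hx).1)
        fun j => (hV j).2.2.2.2.1)
  have ck : ∀ C ⊆ T, IsCompact C → Tendsto (fun j => ∫ x in C, dn T κ H (Q₀ j) x *
      (ε₀ j * (- KKt h (Q₀ j) x))) atTop (𝓝 0) :=
    hto (fun j x => ε₀ j * (- KKt h (Q₀ j) x))
      (fun j => continuousOn_const.mul (hIK j).1.neg) (fun j x hx => ((hV j).2.2.2.1 x hx).2)
      (fun j γ x y hxy => by
        show ε₀ j * (- KKt h (Q₀ j) y) = ε₀ j * (- KKt h (Q₀ j) x)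
        rw [((hIK j).2.2.1 γ x y hxy).1])
      (hle0 _ (fun j => hnn j _ fun x hx => ((hV j).2.2.2.1 x hx).2)
        fun j => (hV j).2.2.2.2.2)
  -- `∫_C tr (Q h⁻¹)`
  obtain ⟨c₀, C₀, hcmp⟩ := hCMPG T R H h D.ket D.her
  obtain ⟨-, hC₀, hcm⟩ := hcmp
  have hgc : ∀ j, ContinuousOn (fun x => (Matrix.trace (Q₀ j x * (h x)⁻¹)).re) T := fun j =>
    cont_trace (contM (hS₀.tke j).ket.smooth) hhc hhd
  have hgc' : ∀ j, ContinuousOn (fun x => (Matrix.trace (Q₀ j x * (H x)⁻¹)).re) T := fun j =>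
    cont_trace (contM (hS₀.tke j).ket.smooth) hHc hHd
  have hgB : ∀ C ⊆ T, IsCompact C → ∃ B : ℝ, ∀ j,
      ∫ x in C, (Matrix.trace (Q₀ j x * (h x)⁻¹)).re ≤ B := by
    intro C hC hCc
    obtain ⟨B, hB⟩ := hW2 C hC hCc
    refine ⟨C₀ * B, fun j => ?_⟩
    have h1 : ∫ x in C, (Matrix.trace (Q₀ j x * (h x)⁻¹)).re ≤
        ∫ x in C, C₀ * (Matrix.trace (Q₀ j x * (H x)⁻¹)).re := by
      refine setIntegral_mono_on (((hgc j).mono hC).integrableOn_compact hCc)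
        ((((hgc' j).mono hC).integrableOn_compact hCc).const_mul _) hCc.measurableSet
        fun x hx => ?_
      exact Pool.Agent.Helper94.GS.tr_cmp ((hS₀.tke j).ket.posDef x (hC hx))
        (D.ket.posDef x (hC hx)) (D.her.posDef x (hC hx)) hC₀ (hcm x (hC hx)).2
    rw [integral_const_mul] at h1
    exact h1.trans (mul_le_mul_of_nonneg_left (hB (ε₀ j) (H'₀ j) (Q₀ j) (seq_tkes hS₀ j))
      hC₀.le)
  -- bounds of `B`
  set M : ℝ := s + 1 with hM
  have hM0 : 0 < M := by have := hS₀.nn; rw [hM]; linarith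
  set c : ℝ := n / M with hc
  have hnR : (0 : ℝ) < n := by exact_mod_cast hn
  have hc0 : 0 < c := div_pos hnR hM0
  have hub : ∀ j, ∀ x ∈ T, c * ε₀ j * (Matrix.trace (h x * (Q₀ j x)⁻¹)).re ≤ n := by
    intro j x hx
    have h1 := hS₀.m_le j x hx
    have h2 := hS₀.S_le j
    have h3 : 1 / ((j : ℝ) + 1) ≤ 1 := by
      rw [div_le_one (by positivity)]
      have : (0 : ℝ) ≤ j := Nat.cast_nonneg j
      linarith
    have h4 : ε₀ j * (Matrix.trace (h x * (Q₀ j x)⁻¹)).re ≤ M := by rw [hM]; linarith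
    have h5 := mul_le_mul_of_nonneg_left h4 hc0.le
    have h6 : c * M = n := by rw [hc]; field_simp
    rw [h6] at h5
    rw [mul_assoc]
    exact h5
  have hBsm : ∀ j a b, ContDiffOn ℝ ∞ (fun y => Bep (ε₀ j) h (Q₀ j) y a b) T := by
    intro j a b
    have h1 : Pool.Agent.Helper45.HS.SmM (fun x => (Q₀ j x)⁻¹) T :=
      Pool.Agent.Helper45.HS.SmM.inv (hS₀.tke j).ket.smooth fun x hx =>
        ((hS₀.tke j).ket.posDef x hx).det_pos.ne'
    have h2 : Pool.Agent.Helper45.HS.SmM (fun x => h x * (Q₀ j x)⁻¹) T :=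
      Pool.Agent.Helper45.HS.SmM.mul D.her.smooth h1
    exact contDiffOn_const.mul (h2 a b)
  have hDB : ∀ C ⊆ T, IsCompact C → ∃ K' : ℝ, ∀ j, ∀ x ∈ C,
      (∀ a b, ‖Bep (ε₀ j) h (Q₀ j) x a b‖ ≤ K') ∧
      ∀ l a b, ‖cdb l (fun y => Bep (ε₀ j) h (Q₀ j) y a b) x‖ ^ 2 ≤
        K' * (Matrix.trace (Q₀ j x * (h x)⁻¹)).re * (ε₀ j * AAt h (Q₀ j) x) := by
    intro C hC hCc
    obtain ⟨K', hK'⟩ := hDBB T R h D.her C hC hCc
    refine ⟨c⁻¹ * |K'|, fun j x hx => ?_⟩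
    have hxT := hC hx
    obtain ⟨h1, h2⟩ := hK' (c * ε₀ j) (Q₀ j) (mul_pos hc0 (hS₀.eps j)) (hS₀.tke j).ket (hub j)
      x hx
    have hg : 0 ≤ (Matrix.trace (Q₀ j x * (h x)⁻¹)).re :=
      trace_nonneg ((hS₀.tke j).ket.posDef x hxT).posSemidef (D.her.posDef x hxT).inv.posSemidef
    have ha := ((hV j).2.2.2.1 x hxT).1
    refine ⟨fun a b => ?_, fun l a b => ?_⟩
    · have h3 := h1 a b
      rw [Bep_scale, norm_mul, Complex.norm_real, Real.norm_of_nonneg hc0.le] at h3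
      have h4 : c * ‖Bep (ε₀ j) h (Q₀ j) x a b‖ ≤ |K'| := h3.trans (le_abs_self _)
      have h5 := mul_le_mul_of_nonneg_left h4 (inv_pos.2 hc0).le
      rwa [← mul_assoc, inv_mul_cancel₀ hc0.ne', one_mul] at h5
    · have hda : DifferentiableAt ℝ (fun y => Bep (ε₀ j) h (Q₀ j) y a b) x :=
        ((hBsm j a b).contDiffAt (hTo.mem_nhds hxT)).differentiableAt (by simp)
      have e1 : cdb l (fun y => Bep (c * ε₀ j) h (Q₀ j) y a b) x =
          (c : ℂ) * cdb l (fun y => Bep (ε₀ j) h (Q₀ j) y a b) x := by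
        rw [← Pool.Agent.Helper62.HS.cdb_const_mul l (c : ℂ) _ x hda]
        congr 1
        funext y
        exact Bep_scale c (ε₀ j) h (Q₀ j) y a b
      have h3 : ‖cdb l (fun y => Bep (c * ε₀ j) h (Q₀ j) y a b) x‖ ^ 2 ≤
          ∑ l, ∑ a, ∑ b, ‖cdb l (fun y => Bep (c * ε₀ j) h (Q₀ j) y a b) x‖ ^ 2 := by
        refine le_trans ?_ (Finset.single_le_sum (fun l' _ => ?_) (Finset.mem_univ l))
        · refine le_trans ?_ (Finset.single_le_sum (fun a' _ => ?_) (Finset.mem_univ a))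
          · exact Finset.single_le_sum (f := fun b =>
              ‖cdb l (fun y => Bep (c * ε₀ j) h (Q₀ j) y a b) x‖ ^ 2) (fun b' _ => sq_nonneg _)
              (Finset.mem_univ b)
          · exact Finset.sum_nonneg fun _ _ => sq_nonneg _
        · exact Finset.sum_nonneg fun _ _ => Finset.sum_nonneg fun _ _ => sq_nonneg _
      have h4 := h3.trans h2
      rw [e1, norm_mul, Complex.norm_real, Real.norm_of_nonneg hc0.le, mul_pow] at h4
      have h5 : K' * (Matrix.trace (Q₀ j x * (h x)⁻¹)).re * (c * ε₀ j * AAt h (Q₀ j) x) ≤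
          c * (|K'| * (Matrix.trace (Q₀ j x * (h x)⁻¹)).re * (ε₀ j * AAt h (Q₀ j) x)) := by
        have h6 := mul_le_mul_of_nonneg_right (le_abs_self K')
          (mul_nonneg (mul_nonneg hg ha) hc0.le)
        calc _ = K' * ((Matrix.trace (Q₀ j x * (h x)⁻¹)).re * (ε₀ j * AAt h (Q₀ j) x) * c) := by
              ring
          _ ≤ _ := h6
          _ = _ := by ring
      have h7 := h4.trans h5
      have h8 : c * ‖cdb l (fun y => Bep (ε₀ j) h (Q₀ j) y a b) x‖ ^ 2 ≤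
          |K'| * (Matrix.trace (Q₀ j x * (h x)⁻¹)).re * (ε₀ j * AAt h (Q₀ j) x) := by
        refine le_of_mul_le_mul_left ?_ hc0
        calc _ = c ^ 2 * ‖cdb l (fun y => Bep (ε₀ j) h (Q₀ j) y a b) x‖ ^ 2 := by ring
          _ ≤ _ := h7
      have h9 := mul_le_mul_of_nonneg_left h8 (inv_pos.2 hc0).le
      rw [← mul_assoc, inv_mul_cancel₀ hc0.ne', one_mul] at h9
      calc _ ≤ _ := h9
        _ = _ := by ring
  -- the limit
  obtain ⟨ψ, hψ, P', hP'1, hP'2⟩ := hLIMG (ι := Fin n × Fin n) T R H D.ket K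
    (fun j x => Real.log (dn T κ H (Q₀ j) x))
    (fun j x q => Bep (ε₀ j) h (Q₀ j) x q.1 q.2)
    (fun j => (hW₀ j).1) (fun j q => hBsm j q.1 q.2)
    (fun C hC hCc => by
      obtain ⟨B, hB⟩ := hDB C hC hCc
      exact ⟨B, fun j x hx q => (hB j x hx).1 q.1 q.2⟩)
    (fun C hC hCc l q => by
      obtain ⟨K', hK'⟩ := hDB C hC hCc
      obtain ⟨B, hB⟩ := hgB C hC hCc
      have h1 := Pool.Agent.Helper94.GS.tend (n := n) (C := C) hCc
        (D := fun j => dn T κ H (Q₀ j))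
        (f := fun j x => ‖cdb l (fun y => Bep (ε₀ j) h (Q₀ j) y q.1 q.2) x‖)
        (g := fun j x => (Matrix.trace (Q₀ j x * (h x)⁻¹)).re)
        (a := fun j x => ε₀ j * AAt h (Q₀ j) x) (E := K) (K := K') (B := B)
        (fun j => (hdc j).mono hC) (fun j => (hgc j).mono hC)
        (fun j => (continuousOn_const.mul (hIK j).2.1).mono hC)
        (fun j x hx => ((hW₀ j).2.2.1 x (hC hx)).1.le)
        (fun j x hx => ((hW₀ j).2.2.1 x (hC hx)).2) (fun j x hx => norm_nonneg _)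
        (fun j x hx => trace_nonneg ((hS₀.tke j).ket.posDef x (hC hx)).posSemidef
          (D.her.posDef x (hC hx)).inv.posSemidef)
        (fun j x hx => ((hV j).2.2.2.1 x (hC hx)).1) hK.le
        (fun j x hx => (hK' j x hx).2 l q.1 q.2) hB (ca C hC hCc)
      refine h1.congr fun j => ?_
      refine setIntegral_congr_fun hCc.measurableSet fun x hx => ?_
      show _ = Real.exp (Real.log (dn T κ H (Q₀ j) x)) * _
      rw [hexp j x (hC hx)])
  set A : Cn n → Matrix (Fin n) (Fin n) ℂ := fun x => Matrix.of fun i j => P' x (i, j) with hA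
  have hψt := hψ.tendsto_atTop
  refine ⟨s, fun j => S₀ (ψ j), fun j => N₀ (ψ j), fun j => φ₀ (ψ j), fun j => H'₀ (ψ j),
    fun j => ε₀ (ψ j), fun j => Q₀ (ψ j), A, ?_⟩
  refine ⟨hS₀.sub hψ, ?_, fun i j => hP'1 (i, j), fun j => hdinv (ψ j),
    ⟨K, hK, fun j x hx => ((hW₀ (ψ j)).2.2.1 x hx).2⟩, ?_, ?_, ?_, ?_⟩
  · refine ⟨hTo, fun j => hdc (ψ j), fun j x hx => ((hW₀ (ψ j)).2.2.1 x hx).1.le,
      fun j a b => (hBsm (ψ j) a b).continuousOn, fun a b => (hP'1 (a, b)).continuousOn,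
      fun a b => (D.her.smooth a b).continuousOn, fun a b => ?_, D.her.posDef, ?_, ?_, ?_, ?_⟩
    · exact (continuous_apply_apply a b).comp_continuousOn (cont_inv hhc hhd)
    · intro C hC hCc
      obtain ⟨B, hB⟩ := hDB C hC hCc
      exact ⟨B, fun j x hx a b => (hB (ψ j) x hx).1 a b⟩
    · intro C hC hCc a b
      refine (hP'2 C hC hCc (a, b)).congr fun j => ?_
      refine setIntegral_congr_fun hCc.measurableSet fun x hx => ?_
      show Real.exp (Real.log (dn T κ H (Q₀ (ψ j)) x)) * _ = _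
      rw [hexp (ψ j) x (hC hx)]
      rfl
    · intro C hC hCc hv
      obtain ⟨c', hc', h'⟩ := hLOWQ T R H D.ket K C hC hCc hv
      refine ⟨c', hc', fun j => (h' _ (hW₀ (ψ j)).1).trans (le_of_eq ?_)⟩
      refine setIntegral_congr_fun hCc.measurableSet fun x hx => ?_
      exact hexp (ψ j) x (hC hx)
    · intro j x hx
      unfold Bep
      have h1 : (h x).IsHermitian := (D.her.posDef x hx).isHermitian
      have h2 : ((Q₀ (ψ j) x)⁻¹).IsHermitian :=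
        ((hS₀.tke (ψ j)).ket.posDef x hx).inv.isHermitian
      rw [Matrix.conjTranspose_smul, Matrix.conjTranspose_mul, h1.eq, h2.eq, RCLike.star_def,
        Complex.conj_ofReal, Matrix.smul_mul, Matrix.mul_smul, Matrix.mul_assoc]
  · intro C hC hCc
    obtain ⟨B, hB⟩ := hgB C hC hCc
    exact ⟨B, fun j => hB (ψ j)⟩
  · intro C hC hCc
    exact (cv C hC hCc).comp hψt
  · intro C hC hCc
    exact (ca C hC hCc).comp hψt
  · intro C hC hCc
    exact (ck C hC hCc).comp hψt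

/-- RLA from its two halves. -/
theorem rla (hRLC : S_RLC.{u}) (hRLP : S_RLP.{u}) : S_RLA.{u} := by
  intro n hn T G _ R H h D κ hκ
  obtain ⟨s, S, N, φ, H', ε, Q, A, hL⟩ := hRLC hn T R H h D κ hκ
  exact ⟨s, S, N, φ, H', ε, Q, A, hRLP T R H h D κ hκ A s S N φ H' ε Q hL⟩

end Pool.Agent.Helper57.RBC
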