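import Pool.Agent.Helper57.RBC.Exist
import Pool.Agent.Helper94.HS.VENV

/-!
# RBC: the sharp bound, the family and the minimising sequences
-/

open Complex Metric Set Filter Topology MeasureTheory
open scoped ContDiff ComplexConjugate ComplexOrder Manifold Matrix

namespace Pool.Agent.Helper57.RBC

open Pool.Agent.Helper95.Lin Pool.Agent.Helper16.Abund Pool.Agent.Helper92.Orb
  Pool.Agent.Helper10.SP Pool.Agent.Helper95.RK Pool.Agent.Helper57.HS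
  Pool.Agent.Helper15.HS Pool.Agent.Helper15.GS Pool.Agent.Helper16.HS.AYTP

universe u

theorem rmon (hMAXF : Pool.Agent.Helper95.HS.S_MAXF.{u}) (hTRI : Pool.Agent.Helper95.HS.S_TRI.{u})
    (hCL : S_CL) : S_RMON.{u} := by
  intro n T G _ R H h D s hs ε Q hε hQ x hx
  have hT := D.ket.et.isOpen
  have hinv : InvF T R (fun x => (Matrix.trace (h x * (Q x)⁻¹)).re) :=
    (hTRI T R Q hQ.ket).1 h D.her.smooth D.her.inv
  obtain ⟨x₀, hx₀, hmax, hpsd⟩ := hMAXF T R D.ket.et _ hinv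
  have hQp := hQ.ket.posDef x₀ hx₀
  obtain ⟨hAA, hcl⟩ := hCL T hT Q h (fun x => (ε : ℂ) • H x) (chf_ket hQ.ket) hQ.ket.posDef
    hQ.eq D.her.smooth D.her.posDef x₀ hx₀
  have hKK : KKt h Q x₀ ≤ 0 := D.rbc x₀ hx₀ _ hQp.posSemidef.inv
  have hle : (trL Q (fun y => (Matrix.trace (h y * (Q y)⁻¹)).re) x₀).re ≤ 0 := by
    have h1 := tr_mul_nonneg hQp.posSemidef.inv hpsd
    rw [Matrix.mul_neg, Matrix.trace_neg, Complex.neg_re] at h1
    unfold trL
    linarith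
  have hη : (Matrix.trace ((ε : ℂ) • H x₀ * (Q x₀)⁻¹ * h x₀ * (Q x₀)⁻¹)).re =
      ε * (Matrix.trace (H x₀ * (Q x₀)⁻¹ * h x₀ * (Q x₀)⁻¹)).re := by
    rw [Matrix.smul_mul, Matrix.smul_mul, Matrix.smul_mul, Matrix.trace_smul, smul_eq_mul,
      Complex.re_ofReal_mul]
  obtain ⟨ht0, hb0, ha0, hcs⟩ := cs_tr (D.ket.posDef x₀ hx₀) (D.her.posDef x₀ hx₀).posSemidef hQp
  have hsb := hs x₀ hx₀
  rw [hη] at hcl
  rw [hcl] at hle
  set t := (Matrix.trace (h x₀ * (Q x₀)⁻¹)).re with ht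
  set a := (Matrix.trace (H x₀ * (Q x₀)⁻¹ * h x₀ * (Q x₀)⁻¹)).re with ha
  set b := (Matrix.trace (h x₀ * (H x₀)⁻¹)).re with hb
  have h1 : ε * a ≤ t := by linarith
  have h2 : ε * t ≤ s := by
    rcases ht0.eq_or_lt with h0 | h0
    · rw [← h0, mul_zero]
      linarith
    · have h3 : ε * t * t ≤ s * t := by
        calc ε * t * t = ε * t ^ 2 := by ring
          _ ≤ ε * (a * b) := mul_le_mul_of_nonneg_left hcs hε.le
          _ = (ε * a) * b := by ring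
          _ ≤ t * b := mul_le_mul_of_nonneg_right h1 hb0
          _ ≤ t * s := mul_le_mul_of_nonneg_left hsb h0.le
          _ = s * t := by ring
      exact le_of_mul_le_mul_right h3 h0
  exact (mul_le_mul_of_nonneg_left (hmax x hx) hε.le).trans h2

theorem ket_smul {n : ℕ} {T : Set (Cn n)} {G : Type u} [Group G] {R : G → Cn n → Cn n → Prop}
    {Q : Cn n → Matrix (Fin n) (Fin n) ℂ} (hQ : KEt T R Q) {c : ℝ} (hc : 0 < c) :
    KEt T R (fun x => (c : ℂ) • Q x) := by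
  have e : ∀ x, Q x - ((1 - c : ℝ) : ℂ) • Q x = (c : ℂ) • Q x := by
    intro x
    push_cast
    module
  have h1 := lin_comb hQ (chf_ket hQ) hQ.inv (1 - c) (fun x hx => by
    rw [e]
    exact (hQ.posDef x hx).smul (Complex.zero_lt_real.2 hc))
  have h2 : (fun x => Q x - ((1 - c : ℝ) : ℂ) • Q x) = fun x => (c : ℂ) • Q x := by
    funext x
    exact e x
  rwa [h2] at h1

theorem rfam (hWIRT : S_WIRT) (hRHOI : S_RHOI.{u}) : S_RFAM.{u} := by
  intro n T G _ R H hH N φ H' hF ε Q hε hQ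
  have hT := hH.et.isOpen
  obtain ⟨hi, hr⟩ := (hRHOI T R H hH.et (her_ket hH)).2.2.2.2 Q (her_ket hQ.ket)
  have key : ∀ x ∈ T, Q x = (ε : ℂ) • H x + ((1 + ε * N : ℝ) : ℂ) • rho H x +
      LM (fun y => ε * φ y + (ld Q y - ld H y)) x := by
    intro x hx
    have e1 : (fun y => ε * φ y + (ld Q y - ld H y)) =
        fun y => ε * φ y + 1 * (ld Q y - ld H y) := by
      funext y; ring
    rw [e1, Pool.Agent.Helper94.HS.LM_lin hWIRT hT hF.inv.1 hi.1 ε 1 hx]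
    have h1 := hQ.eq x hx
    rw [hr x hx, hF.eq x hx] at h1
    have h2 : Q x = rho H x + LM (fun y => ld Q y - ld H y) x +
        (ε : ℂ) • (H x + (N : ℂ) • rho H x + LM φ x) := by
      rw [h1]; abel
    rw [h2]
    push_cast
    module
  refine ⟨⟨ket_smul hQ.ket (inv_pos.2 hε), ?_, ?_, ?_⟩, key⟩
  · have := hF.nn
    positivity
  · refine ⟨hF.inv.1.add (contDiffOn_const.mul hi.1), fun γ x y hR => ?_⟩
    have h0 := hF.inv.2 γ x y hR
    have h1 := hi.2 γ x y hR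
    simp only at h1 ⊢
    rw [h0, h1]
  · intro x hx
    have e1 : (fun y => φ y + ε⁻¹ * (ld Q y - ld H y)) =
        fun y => 1 * φ y + ε⁻¹ * (ld Q y - ld H y) := by
      funext y; ring
    rw [e1, Pool.Agent.Helper94.HS.LM_lin hWIRT hT hF.inv.1 hi.1 1 ε⁻¹ hx]
    have h1 := hQ.eq x hx
    rw [hr x hx, hF.eq x hx] at h1
    have h2 : Q x = rho H x + LM (fun y => ld Q y - ld H y) x +
        (ε : ℂ) • (H x + (N : ℂ) • rho H x + LM φ x) := by
      rw [h1]; abel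
    have hεc : (ε : ℂ) ≠ 0 := by exact_mod_cast hε.ne'
    rw [h2, smul_add, smul_smul]
    push_cast
    rw [inv_mul_cancel₀ hεc]
    module

theorem tr_smul_inv {n : ℕ} {h Q : Matrix (Fin n) (Fin n) ℂ} (hQ : Q.PosDef) {c : ℝ}
    (hc : 0 < c) : (Matrix.trace (h * (((c⁻¹ : ℝ) : ℂ) • Q)⁻¹)).re =
      c * (Matrix.trace (h * Q⁻¹)).re := by
  have hcc : (c : ℂ) ≠ 0 := by exact_mod_cast hc.ne'
  have hu : IsUnit Q.det := (Matrix.isUnit_iff_isUnit_det Q).1 hQ.isUnit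
  have h1 : (((c⁻¹ : ℝ) : ℂ) • Q)⁻¹ = (c : ℂ) • Q⁻¹ := by
    apply Matrix.inv_eq_left_inv
    rw [Matrix.smul_mul, Matrix.mul_smul, Matrix.nonsing_inv_mul _ hu, smul_smul]
    push_cast
    rw [mul_inv_cancel₀ hcc, one_smul]
  rw [h1, Matrix.mul_smul, Matrix.trace_smul, smul_eq_mul, Complex.re_ofReal_mul]

theorem rseq (hMAXF : Pool.Agent.Helper95.HS.S_MAXF.{u}) (hTRI : Pool.Agent.Helper95.HS.S_TRI.{u})
    (hCMP : Pool.Agent.Helper95.HS.S_CMP.{u}) (hREX : S_REX.{u}) (hRMON : S_RMON.{u})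
    (hRFAM : S_RFAM.{u}) : S_RSEQ.{u} := by
  intro n T G _ R H h D
  have hH := D.ket
  have hT := hH.et.isOpen
  obtain ⟨p₀, hp₀⟩ := hH.et.nonempty
  have hinvf : ∀ Q : Cn n → Matrix (Fin n) (Fin n) ℂ, KEt T R Q →
      InvF T R (fun x => (Matrix.trace (h x * (Q x)⁻¹)).re) := fun Q hQ =>
    (hTRI T R Q hQ).1 h D.her.smooth D.her.inv
  set A : Set ℝ := {s | ∃ (N : ℝ) (φ : Cn n → ℝ) (H' : Cn n → Matrix (Fin n) (Fin n) ℂ),
    Fam T R H N φ H' ∧ SupB T h H' s} with hA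
  have hne : A.Nonempty := by
    obtain ⟨x₀, hx₀, hmax, -⟩ := hMAXF T R hH.et _ (hinvf H hH)
    refine ⟨_, 0, fun _ => 0, H, ⟨hH, le_rfl, ⟨contDiffOn_const, fun _ _ _ _ => rfl⟩, ?_⟩, hmax⟩
    intro x _
    rw [Pool.Agent.Helper94.HS.LM_const]
    simp
  have hlow : ∀ s ∈ A, 0 ≤ s := by
    rintro s ⟨N, φ, H', hF, hs⟩
    refine le_trans ?_ (hs p₀ hp₀)
    exact tr_mul_nonneg (D.her.posDef p₀ hp₀).posSemidef (hF.ket.posDef p₀ hp₀).posSemidef.inv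
  have hbdd : BddBelow A := ⟨0, fun s hs => hlow s hs⟩
  set s := sInf A with hs
  have hs0 : 0 ≤ s := le_csInf hne hlow
  have hex : ∀ j : ℕ, ∃ (S N : ℝ) (φ : Cn n → ℝ) (H' : Cn n → Matrix (Fin n) (Fin n) ℂ)
      (ε : ℝ) (Q : Cn n → Matrix (Fin n) (Fin n) ℂ),
      s ≤ S ∧ S ≤ s + 1 / ((j : ℝ) + 1) ∧ Fam T R H N φ H' ∧ SupB T h H' S ∧ 0 < ε ∧
      ε ≤ 1 / ((j : ℝ) + 1) ∧ ε * N ≤ 1 / ((j : ℝ) + 1) ∧
      (∀ x ∈ T, ε * |φ x| ≤ 1 / ((j : ℝ) + 1)) ∧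
      (∀ x ∈ T, (H x - (ε : ℂ) • H' x).PosSemidef) ∧ TKE T R H' ε Q ∧
      (∀ x ∈ T, ε * (Matrix.trace (h x * (Q x)⁻¹)).re ≤ S) ∧
      ∃ x ∈ T, s ≤ ε * (Matrix.trace (h x * (Q x)⁻¹)).re := by
    intro j
    have hj : (0 : ℝ) < 1 / ((j : ℝ) + 1) := by positivity
    set d : ℝ := 1 / ((j : ℝ) + 1) with hd
    obtain ⟨S, ⟨N, φ, H', hF, hS⟩, hlt⟩ := exists_lt_of_csInf_lt hne (show sInf A < s + d by
      rw [← hs]; linarith)
    obtain ⟨x₁, hx₁, hm₁, -⟩ := hMAXF T R hH.et φ hF.inv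
    obtain ⟨x₂, hx₂, hm₂, -⟩ := hMAXF T R hH.et (fun x => - φ x) ⟨hF.inv.1.neg, fun γ x y hR => by
      have h0 := hF.inv.2 γ x y hR
      simp only
      rw [h0]⟩
    set M : ℝ := max |φ x₁| |φ x₂| with hM
    have hφ : ∀ x ∈ T, |φ x| ≤ M := by
      intro x hx
      rw [abs_le]
      constructor
      · have h1 := hm₂ x hx
        have h2 : - φ x ≤ M := h1.trans ((neg_le_abs _).trans (le_max_right _ _))
        linarith
      · exact (hm₁ x hx).trans ((le_abs_self _).trans (le_max_left _ _))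
    have hM0 : 0 ≤ M := (abs_nonneg _).trans (hφ x₁ hx₁)
    obtain ⟨c, hc, hcm⟩ := hCMP T R H' H hF.ket hH
    have hN := hF.nn
    set ε : ℝ := min (min d (d / (N + 1))) (min (d / (M + 1)) c) with hε
    have hε0 : 0 < ε := by
      rw [hε]
      refine lt_min (lt_min hj (by positivity)) (lt_min (by positivity) hc)
    have he1 : ε ≤ d := (min_le_left _ _).trans (min_le_left _ _)
    have he2 : ε ≤ d / (N + 1) := (min_le_left _ _).trans (min_le_right _ _)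
    have he3 : ε ≤ d / (M + 1) := (min_le_right _ _).trans (min_le_left _ _)
    have he4 : ε ≤ c := (min_le_right _ _).trans (min_le_right _ _)
    have D' : RDat T R H' h := ⟨hF.ket, D.her, D.rbc⟩
    obtain ⟨Q, hQ⟩ := hREX T R H' h D' ε hε0
    refine ⟨S, N, φ, H', ε, Q, csInf_le hbdd ⟨N, φ, H', hF, hS⟩, hlt.le, hF, hS, hε0, he1, ?_,
      ?_, ?_, hQ, hRMON T R H' h D' S hS ε Q hε0 hQ, ?_⟩
    · rw [le_div_iff₀ (by positivity)] at he2
      nlinarith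
    · intro x hx
      rw [le_div_iff₀ (by positivity)] at he3
      have := hφ x hx
      have h1 : ε * |φ x| ≤ ε * M := mul_le_mul_of_nonneg_left this hε0.le
      nlinarith
    · intro x hx
      have e : H x - (ε : ℂ) • H' x = (H x - (c : ℂ) • H' x) + ((c - ε : ℝ) : ℂ) • H' x := by
        push_cast
        module
      rw [e]
      refine (hcm x hx).add ((hF.ket.posDef x hx).posSemidef.smul ?_)
      exact Complex.zero_le_real.2 (by linarith)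
    · obtain ⟨x₀, hx₀, hmax, -⟩ := hMAXF T R hH.et _ (hinvf Q hQ.ket)
      refine ⟨x₀, hx₀, ?_⟩
      have hFQ := (hRFAM T R H hH N φ H' hF ε Q hε0 hQ).1
      refine csInf_le hbdd ⟨_, _, _, hFQ, ?_⟩
      intro x hx
      rw [tr_smul_inv (hQ.ket.posDef x hx) hε0]
      exact mul_le_mul_of_nonneg_left (hmax x hx) hε0.le
  choose S N φ H' ε Q h1 h2 h3 h4 h5 h6 h7 h8 h9 h10 h11 h12 using hex
  exact ⟨s, S, N, φ, H', ε, Q, ⟨hs0, h1, h2, h3, h4, h5, h6, h7, h8, h9, h10, h11, h12⟩⟩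

end Pool.Agent.Helper57.RBC
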