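import Pool.Agent.Helper57.RBC.Defs
import Pool.Agent.Helper16.HS.AYT

/-!
# RBC: existence of the twisted Kähler–Einstein metrics and the sharp monotone bound
-/

open Complex Metric Set Filter Topology MeasureTheory
open scoped ContDiff ComplexConjugate ComplexOrder Manifold Matrix

namespace Pool.Agent.Helper57.RBC

open Pool.Agent.Helper95.Lin Pool.Agent.Helper16.Abund Pool.Agent.Helper92.Orb
  Pool.Agent.Helper10.SP Pool.Agent.Helper95.RK Pool.Agent.Helper57.HS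
  Pool.Agent.Helper15.HS Pool.Agent.Helper15.GS Pool.Agent.Helper16.HS.AYTP

universe u

/-- The trace of the product of two positive semidefinite matrices is nonnegative. -/
theorem tr_mul_nonneg {n : ℕ} {A B : Matrix (Fin n) (Fin n) ℂ} (hA : A.PosSemidef)
    (hB : B.PosSemidef) : 0 ≤ (Matrix.trace (A * B)).re := by
  obtain ⟨S, hS⟩ : ∃ S : Matrix (Fin n) (Fin n) ℂ, A = Sᴴ * S := by
    open scoped MatrixOrder in
    exact CStarAlgebra.nonneg_iff_eq_star_mul_self.mp hA.nonneg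
  have h0 : Matrix.trace (A * B) = Matrix.trace (S * B * Sᴴ) := by
    rw [hS, Matrix.mul_assoc, Matrix.trace_mul_comm Sᴴ, Matrix.mul_assoc]
  have h1 : (S * B * Sᴴ).PosSemidef := hB.mul_mul_conjTranspose_same S
  rw [h0]
  exact (Complex.le_def.1 h1.trace_nonneg).1

/-- The uniform bound. -/
theorem rub (hUB : S_UB.{u}) {n : ℕ} {T : Set (Cn n)} {G : Type u} [Group G]
    {R : G → Cn n → Cn n → Prop} {H h : Cn n → Matrix (Fin n) (Fin n) ℂ} (D : RDat T R H h)
    {c C : ℝ} (hcmp : Cmp c C T H h) {ε : ℝ} {Q : Cn n → Matrix (Fin n) (Fin n) ℂ}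
    (hε : 0 < ε) (hQ : TKE T R H ε Q) : ∀ x ∈ T,
    (Matrix.trace (h x * (Q x)⁻¹)).re ≤ n / (ε * c) ∧
      (Matrix.trace (Bep ε H Q x)).re ≤ n * C / c := by
  intro x hx
  obtain ⟨hc, hC, hcmp⟩ := hcmp
  have h1 : (Matrix.trace (h x * (Q x)⁻¹)).re ≤ n / (ε * c) := by
    refine hUB T R Q h (fun x => (ε : ℂ) • H x) hQ.ket D.her D.rbc (fun x hx => hQ.eq x hx)
      (ε * c) (by positivity) (fun x hx => ?_) x hx
    have h2 : (ε : ℂ) • H x - ((ε * c : ℝ) : ℂ) • h x = (ε : ℂ) • (H x - (c : ℂ) • h x) := by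
      rw [smul_sub, smul_smul]
      push_cast
      rfl
    rw [h2]
    exact (hcmp x hx).1.smul (by exact_mod_cast hε.le)
  refine ⟨h1, ?_⟩
  have h3 := tr_mul_nonneg (hcmp x hx).2 (hQ.ket.posDef x hx).posSemidef.inv
  rw [Matrix.sub_mul, Matrix.trace_sub, Matrix.smul_mul, Matrix.trace_smul, smul_eq_mul,
    Complex.sub_re, Complex.re_ofReal_mul] at h3
  unfold Bep
  rw [Matrix.trace_smul, smul_eq_mul, Complex.re_ofReal_mul]
  have h4 : C * (Matrix.trace (h x * (Q x)⁻¹)).re ≤ C * (n / (ε * c)) :=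
    mul_le_mul_of_nonneg_left h1 hC.le
  have h5 : (Matrix.trace (H x * (Q x)⁻¹)).re ≤ C * (n / (ε * c)) := by linarith
  have h6 := mul_le_mul_of_nonneg_left h5 hε.le
  refine h6.trans (le_of_eq ?_)
  field_simp

theorem rex (hAYG : S_AYG.{u}) (hCMPG : S_CMPG.{u}) (hUB : S_UB.{u}) (hRHOI : S_RHOI.{u}) :
    S_REX.{u} := by
  intro n T G _ R H h hG
  have hH := hG.ket
  have hT := hH.et.isOpen
  obtain ⟨c₁, C₁, hcmp⟩ := hCMPG T R H h hH hG.her
  obtain ⟨hr1, hr2, -, -, -⟩ := hRHOI T R H hH.et (her_ket hH)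
  obtain ⟨c, hc⟩ := low_bound hH hr1 hr2
  -- (1) large parameters
  have hlarge : ∀ ε : ℝ, max 1 (1 - c) ≤ ε → ∃ Q, TKE T R H ε Q := by
    intro ε hε
    have hε1 : 1 - c ≤ ε := le_trans (le_max_right _ _) hε
    have hpos : ∀ x ∈ T, (rho H x - ((-ε : ℝ) : ℂ) • H x).PosDef := by
      intro x hx
      have e : rho H x - ((-ε : ℝ) : ℂ) • H x =
          (rho H x - (c : ℂ) • H x) + ((c + ε : ℝ) : ℂ) • H x := by
        push_cast
        module
      rw [e]
      refine Matrix.PosDef.posSemidef_add (hc x hx) ?_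
      exact (hH.posDef x hx).smul (Complex.zero_lt_real.2 (by linarith))
    have hX := lin_comb hH hr1 hr2 (-ε) hpos
    obtain ⟨Q, hQ, hQe⟩ := step hAYG hRHOI hH hX
    refine ⟨Q, hQ, fun x hx => ?_⟩
    rw [hQe x hx]
    push_cast
    module
  -- (2) one step
  have hc1 : 0 < c₁ := hcmp.1
  have hC1 : 0 < C₁ := hcmp.2.1
  have hn0 : (0 : ℝ) ≤ n := Nat.cast_nonneg n
  set M : ℝ := n * C₁ / c₁ with hM
  have hM0 : 0 ≤ M := by rw [hM]; positivity
  set q : ℝ := 1 - 1 / (2 * (M + 1)) with hq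
  have hq0 : 0 < q := by
    rw [hq, sub_pos, div_lt_one (by positivity)]
    linarith
  have hq1 : q < 1 := by
    rw [hq]
    have : 0 < 1 / (2 * (M + 1)) := by positivity
    linarith
  have hstep : ∀ ε ε' : ℝ, 0 < ε → 0 < ε' → q * ε ≤ ε' → ε' ≤ ε → (∃ Q, TKE T R H ε Q) →
      ∃ Q, TKE T R H ε' Q := by
    rintro ε ε' hε hε' h1 h2 ⟨Q, hQ⟩
    have hub : ∀ x ∈ T, (Matrix.trace (H x * (Q x)⁻¹)).re ≤ M / ε := by
      intro x hx
      have h3 := (rub hUB hG hcmp hε hQ x hx).2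
      unfold Bep at h3
      rw [Matrix.trace_smul, smul_eq_mul, Complex.re_ofReal_mul] at h3
      rw [le_div_iff₀ hε, mul_comm]
      exact h3
    have hpos : ∀ x ∈ T, (Q x - ((ε - ε' : ℝ) : ℂ) • H x).PosDef := by
      intro x hx
      refine sub_posDef (hQ.ket.posDef x hx) (hH.posDef x hx) (by linarith) ?_
      have h3 := hub x hx
      have h4 : ε - ε' ≤ ε * (1 / (2 * (M + 1))) := by
        rw [hq] at h1
        nlinarith
      calc (ε - ε') * (Matrix.trace (H x * (Q x)⁻¹)).re ≤ (ε - ε') * (M / ε) :=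
            mul_le_mul_of_nonneg_left h3 (by linarith)
        _ ≤ (ε * (1 / (2 * (M + 1)))) * (M / ε) :=
            mul_le_mul_of_nonneg_right h4 (by positivity)
        _ = M / (2 * (M + 1)) := by field_simp
        _ < 1 := by
            rw [div_lt_one (by positivity)]
            linarith
    have hX := lin_comb hH (chf_ket hQ.ket) hQ.ket.inv (ε - ε') hpos
    obtain ⟨Q', hQ', hQe⟩ := step hAYG hRHOI hQ.ket hX
    refine ⟨Q', hQ', fun x hx => ?_⟩
    rw [hQe x hx, hQ.eq x hx]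
    push_cast
    module
  -- (3) induction
  set ε₀ : ℝ := max 1 (1 - c) with hε₀
  have hε₀pos : 0 < ε₀ := lt_of_lt_of_le one_pos (le_max_left _ _)
  have hind : ∀ m : ℕ, ∀ ε : ℝ, 0 < ε → q ^ m * ε₀ ≤ ε → ∃ Q, TKE T R H ε Q := by
    intro m
    induction m with
    | zero =>
      intro ε _ h
      rw [pow_zero, one_mul] at h
      exact hlarge ε h
    | succ m ih =>
      intro ε hε h
      rcases le_or_gt (q ^ m * ε₀) ε with h1 | h1
      · exact ih ε hε h1
      · have h2 : 0 < q ^ m * ε₀ := by positivity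
        refine hstep (q ^ m * ε₀) ε h2 hε ?_ h1.le (ih _ h2 le_rfl)
        calc q * (q ^ m * ε₀) = q ^ (m + 1) * ε₀ := by ring
          _ ≤ ε := h
  intro ε hε
  obtain ⟨m, hm⟩ := exists_pow_lt_of_lt_one (show 0 < ε / ε₀ by positivity) hq1
  exact hind m ε hε (by
    have := (lt_div_iff₀ hε₀pos).1 hm
    exact this.le)

/-- The Cauchy–Schwarz inequality `(tr (h Q⁻¹))² ≤ tr (H Q⁻¹ h Q⁻¹) tr (h H⁻¹)`. -/
theorem cs_tr {n : ℕ} {H h Q : Matrix (Fin n) (Fin n) ℂ} (hH : H.PosDef) (hh : h.PosSemidef)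
    (hQ : Q.PosDef) :
    0 ≤ (Matrix.trace (h * Q⁻¹)).re ∧ 0 ≤ (Matrix.trace (h * H⁻¹)).re ∧
    0 ≤ (Matrix.trace (H * Q⁻¹ * h * Q⁻¹)).re ∧
    (Matrix.trace (h * Q⁻¹)).re ^ 2 ≤
      (Matrix.trace (H * Q⁻¹ * h * Q⁻¹)).re * (Matrix.trace (h * H⁻¹)).re := by
  obtain ⟨P, P', μ, hPP, hPP', hQe, hYe⟩ := Helper27.HS.trc_simul Q H hQ hH.isHermitian
  have hinvQ : Q⁻¹ = P'ᴴ * P' := by
    apply Matrix.inv_eq_left_inv
    calc P'ᴴ * P' * Q = P'ᴴ * (P' * P) * Pᴴ := by rw [hQe]; simp only [Matrix.mul_assoc]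
      _ = (P * P')ᴴ := by rw [hPP', Matrix.mul_one, Matrix.conjTranspose_mul]
      _ = 1 := by rw [hPP, Matrix.conjTranspose_one]
  have hdiag : P' * H * P'ᴴ = Matrix.diagonal (fun i => (μ i : ℂ)) := by
    rw [hYe]
    calc P' * (P * Matrix.diagonal (fun i => (μ i : ℂ)) * Pᴴ) * P'ᴴ
        = (P' * P) * Matrix.diagonal (fun i => (μ i : ℂ)) * (P' * P)ᴴ := by
          rw [Matrix.conjTranspose_mul]; simp only [Matrix.mul_assoc]
      _ = _ := by rw [hPP', Matrix.conjTranspose_one, Matrix.one_mul, Matrix.mul_one]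
  have hμ : ∀ i, 0 < μ i := by
    have hinj : Function.Injective P'.vecMul := by
      intro a b hab
      have h1 := congrArg (fun z => Matrix.vecMul z P) hab
      simpa [Matrix.vecMul_vecMul, hPP'] using h1
    have h1 : (P' * H * P'ᴴ).PosDef := hH.mul_mul_conjTranspose_same (B := P') hinj
    rw [hdiag, Matrix.posDef_diagonal_iff] at h1
    intro i
    exact Complex.zero_lt_real.1 (h1 i)
  set g : Matrix (Fin n) (Fin n) ℂ := P' * h * P'ᴴ with hg
  have hgp : g.PosSemidef := hh.mul_mul_conjTranspose_same P'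
  have hgii : ∀ i, 0 ≤ (g i i).re := fun i => (Complex.le_def.1 (hgp.diag_nonneg (i := i))).1
  have hinvH : H⁻¹ = P'ᴴ * Matrix.diagonal (fun i => ((μ i)⁻¹ : ℂ)) * P' := by
    apply Matrix.inv_eq_left_inv
    rw [hYe]
    calc P'ᴴ * Matrix.diagonal (fun i => ((μ i)⁻¹ : ℂ)) * P' *
          (P * Matrix.diagonal (fun i => (μ i : ℂ)) * Pᴴ)
        = P'ᴴ * Matrix.diagonal (fun i => ((μ i)⁻¹ : ℂ)) * (P' * P) *
          Matrix.diagonal (fun i => (μ i : ℂ)) * Pᴴ := by simp only [Matrix.mul_assoc]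
      _ = P'ᴴ * (Matrix.diagonal (fun i => ((μ i)⁻¹ : ℂ)) *
          Matrix.diagonal (fun i => (μ i : ℂ))) * Pᴴ := by
          rw [hPP', Matrix.mul_one]; simp only [Matrix.mul_assoc]
      _ = P'ᴴ * 1 * Pᴴ := by
          rw [Matrix.diagonal_mul_diagonal]
          congr 2
          rw [← Matrix.diagonal_one]
          congr 1
          funext i
          exact inv_mul_cancel₀ (by exact_mod_cast (hμ i).ne')
      _ = (P * P')ᴴ := by rw [Matrix.mul_one, Matrix.conjTranspose_mul]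
      _ = 1 := by rw [hPP, Matrix.conjTranspose_one]
  have e1 : Matrix.trace (h * Q⁻¹) = Matrix.trace g := by
    rw [hinvQ, ← Matrix.mul_assoc, Matrix.trace_mul_comm, ← Matrix.mul_assoc]
  have e2 : Matrix.trace (h * H⁻¹) = ∑ i, g i i * ((μ i)⁻¹ : ℂ) := by
    rw [hinvH]
    have : h * (P'ᴴ * Matrix.diagonal (fun i => ((μ i)⁻¹ : ℂ)) * P') =
        h * P'ᴴ * Matrix.diagonal (fun i => ((μ i)⁻¹ : ℂ)) * P' := by
      simp only [Matrix.mul_assoc]
    rw [this, Matrix.trace_mul_comm]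
    have : P' * (h * P'ᴴ * Matrix.diagonal (fun i => ((μ i)⁻¹ : ℂ))) =
        g * Matrix.diagonal (fun i => ((μ i)⁻¹ : ℂ)) := by
      rw [hg]; simp only [Matrix.mul_assoc]
    rw [this]
    unfold Matrix.trace
    refine Finset.sum_congr rfl fun i _ => ?_
    rw [Matrix.diag_apply, Matrix.mul_diagonal]
  have e3 : Matrix.trace (H * Q⁻¹ * h * Q⁻¹) = ∑ i, g i i * (μ i : ℂ) := by
    have h1 : H * Q⁻¹ * h * Q⁻¹ = P * (Matrix.diagonal (fun i => (μ i : ℂ)) * g) * P' := by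
      rw [hinvQ, hYe, hg]
      calc P * Matrix.diagonal (fun i => (μ i : ℂ)) * Pᴴ * (P'ᴴ * P') * h * (P'ᴴ * P')
          = P * Matrix.diagonal (fun i => (μ i : ℂ)) * (Pᴴ * P'ᴴ) * (P' * h * P'ᴴ) * P' := by
            simp only [Matrix.mul_assoc]
        _ = _ := by
            rw [← Matrix.conjTranspose_mul, hPP', Matrix.conjTranspose_one, Matrix.mul_one]
            simp only [Matrix.mul_assoc]
    rw [h1, Matrix.trace_mul_comm, ← Matrix.mul_assoc, hPP', Matrix.one_mul]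
    unfold Matrix.trace
    refine Finset.sum_congr rfl fun i _ => ?_
    rw [Matrix.diag_apply, Matrix.diagonal_mul]
    ring
  have r1 : (Matrix.trace (h * Q⁻¹)).re = ∑ i, (g i i).re := by
    rw [e1]
    unfold Matrix.trace
    rw [Complex.re_sum]
    rfl
  have r2 : (Matrix.trace (h * H⁻¹)).re = ∑ i, (g i i).re / μ i := by
    rw [e2, Complex.re_sum]
    refine Finset.sum_congr rfl fun i _ => ?_
    rw [← Complex.ofReal_inv, Complex.re_mul_ofReal, div_eq_mul_inv]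
  have r3 : (Matrix.trace (H * Q⁻¹ * h * Q⁻¹)).re = ∑ i, (g i i).re * μ i := by
    rw [e3, Complex.re_sum]
    refine Finset.sum_congr rfl fun i _ => ?_
    rw [Complex.re_mul_ofReal]
  have p2 : ∀ i, 0 ≤ (g i i).re / μ i := fun i => div_nonneg (hgii i) (hμ i).le
  have p3 : ∀ i, 0 ≤ (g i i).re * μ i := fun i => mul_nonneg (hgii i) (hμ i).le
  refine ⟨?_, ?_, ?_, ?_⟩
  · rw [r1]; exact Finset.sum_nonneg fun i _ => hgii i
  · rw [r2]; exact Finset.sum_nonneg fun i _ => p2 i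
  · rw [r3]; exact Finset.sum_nonneg fun i _ => p3 i
  · rw [r1, r2, r3]
    have h1 := Finset.sum_mul_sq_le_sq_mul_sq Finset.univ
      (fun i => Real.sqrt ((g i i).re * μ i)) (fun i => Real.sqrt ((g i i).re / μ i))
    have h2 : ∀ i, Real.sqrt ((g i i).re * μ i) * Real.sqrt ((g i i).re / μ i) = (g i i).re := by
      intro i
      rw [← Real.sqrt_mul (p3 i)]
      have : (g i i).re * μ i * ((g i i).re / μ i) = (g i i).re ^ 2 := by
        have := (hμ i).ne'
        field_simp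
      rw [this, Real.sqrt_sq (hgii i)]
    simp only [h2, Real.sq_sqrt (p3 _), Real.sq_sqrt (p2 _)] at h1
    exact h1

end Pool.Agent.Helper57.RBC
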