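import Pool.Agent.Helper57.RBC.Lim
import Pool.Agent.Helper57.RBC.Seq
import Pool.Agent.Helper57.RBC.Exist
import Pool.Agent.Helper82.RBC.RVZ
import Pool.Agent.Helper29.RBC.Rsc
import Pool.Agent.Helper15.GS.Asm

/-!
# RBC: assembly of the existence, the minimising sequences and the weighted limit

`S_AYG` (Aubin and Yau on an étale relation) is an argument.
-/

open Complex Metric Set Filter Topology MeasureTheory
open scoped ContDiff ComplexConjugate ComplexOrder Manifold Matrix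

namespace Pool.Agent.Helper57.RBC.Asm

open Pool.Agent.Helper95.Lin Pool.Agent.Helper16.Abund Pool.Agent.Helper92.Orb
  Pool.Agent.Helper10.SP Pool.Agent.Helper95.RK Pool.Agent.Helper57.HS
  Pool.Agent.Helper15.HS Pool.Agent.Helper10.HS Pool.Agent.Helper15.RK
  Pool.Agent.Helper10.SP.Asm Pool.Agent.Helper15.HS.Asm Pool.Agent.Helper15.GS
  Pool.Agent.Helper15.GS.Asm Pool.Agent.Helper57.RBC

universe u

theorem t_RMON : S_RMON.{u} := rmon t_MAXF t_TRI t_CL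
theorem t_RFAM : S_RFAM.{u} := rfam t_WIRT t_RHOI
theorem t_RAC : S_RAC.{u} := rac t_LOCB t_DETI t_NULL0
theorem t_RVD : S_RVD.{u} := rvd t_WIRT t_DETI t_INVK t_TRI t_KETP t_CL t_RMON
theorem t_RLG : S_RLG.{u} := rlg t_CHN t_WIRT t_DETI t_NULL0 t_TRI t_KETP
theorem t_RSC : Pool.Agent.Helper10.RBC.S_RSC.{u} :=
  Pool.Agent.Helper29.RBC.rsc t_ARRB t_LIMG t_LOWQ
theorem t_RVZ : Pool.Agent.Helper10.RBC.S_RVZ.{u} :=
  Pool.Agent.Helper82.RBC.rvz t_WIRT t_WCH t_ARRB t_DETI t_LOCB t_RSC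

section AYG
variable (hAYG : S_AYG.{u})
include hAYG

theorem t_REX : S_REX.{u} := rex hAYG t_CMPG t_UB t_RHOI
theorem t_RSEQ : S_RSEQ.{u} := rseq t_MAXF t_TRI t_CMP (t_REX hAYG) t_RMON t_RFAM
theorem t_RWT : S_RWT.{u} :=
  rwt t_RHOI t_RHB t_LOCB t_DETI t_TRI t_KETP t_NULL0 t_DENS (t_SBG hAYG)
theorem t_RVC : S_RVC.{u} := rvc t_MAXF (t_RWT hAYG) t_RVD t_RLG t_RVZ
theorem t_RLC : S_RLC.{u} :=
  rlc (t_RSEQ hAYG) (t_RVC hAYG) (t_RWT hAYG) t_RVD t_RAC t_DBB t_CMPG t_INVK t_LIMG t_LOWQ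

end AYG

end Pool.Agent.Helper57.RBC.Asm
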