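import Pool.Agent.Helper10.RBC.Goals

/-!
# RBC, blocks (W), (A), (L), (T) (helper57): the limit `A` of the endomorphisms `ε_j h Q_j⁻¹`

`S_RLA` is the interface for the assembly; the other statements are steps. The weight is
`dn = det Q/(vol Q det H)` of `Helper10/RBC/Goals.lean`.
-/

open Complex Metric Set Filter Topology MeasureTheory
open scoped ContDiff ComplexConjugate ComplexOrder Manifold Matrix

namespace Pool.Agent.Helper57.RBC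

open Pool.Agent.Helper95.Lin Pool.Agent.Helper16.Abund Pool.Agent.Helper92.Orb
  Pool.Agent.Helper10.SP Pool.Agent.Helper95.RK Pool.Agent.Helper57.HS
  Pool.Agent.Helper15.HS Pool.Agent.Helper15.GS
open Pool.Agent.Helper10.RBC (dn)
open Pool.Agent.Helper95.HS (vol DensLe)

universe u v

/-- The minimising sequences together with the limit `A` of `ε_j h Q_j⁻¹`. -/
structure LimB {n : ℕ} (T : Set (Cn n)) {G : Type u} [Group G]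
    (R : G → Cn n → Cn n → Prop) (κ : Cn n → ℝ) (H h A : Cn n → Matrix (Fin n) (Fin n) ℂ)
    (s : ℝ) (S N : ℕ → ℝ) (φ : ℕ → Cn n → ℝ) (H' : ℕ → Cn n → Matrix (Fin n) (Fin n) ℂ)
    (ε : ℕ → ℝ) (Q : ℕ → Cn n → Matrix (Fin n) (Fin n) ℂ) : Prop where
  seq : SeqR T R H h s S N φ H' ε Q
  holo : ∀ i j, DifferentiableOn ℂ (fun x => A x i j) T
  herm : ∀ x ∈ T, A x * h x = h x * (A x)ᴴ
  psd : ∀ x ∈ T, (A x * h x).PosSemidef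
  inv : InvH R fun x => A x * h x
  tr : ∀ x ∈ T, Matrix.trace (A x) = (s : ℂ)
  bB : ∀ C ⊆ T, IsCompact C → ∃ B : ℝ, ∀ j, ∀ x ∈ C, ∀ a c, ‖Bep (ε j) h (Q j) x a c‖ ≤ B
  conv : ∀ C ⊆ T, IsCompact C → ∀ a c, Tendsto (fun j => ∫ x in C, dn T κ H (Q j) x *
    ‖Bep (ε j) h (Q j) x a c - A x a c‖) atTop (𝓝 0)
  crv : ∀ x ∈ T, (crvP h ((h x)⁻¹ * A x) ((h x)⁻¹ * A x) x).re = 0
  tor : ∀ x ∈ T, ∀ m i p, ∑ k, A x m k * (Gam h k x i p - Gam h i x k p) = 0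

/-- RLA. The limit. (Interface for the assembly.) -/
def S_RLA : Prop := ∀ {n : ℕ}, 0 < n → ∀ (T : Set (Cn n)) {G : Type u} [Group G]
  (R : G → Cn n → Cn n → Prop) (H h : Cn n → Matrix (Fin n) (Fin n) ℂ), RDat T R H h →
  ∀ κ, IsPUE T R κ →
  ∃ (s : ℝ) (S N : ℕ → ℝ) (φ : ℕ → Cn n → ℝ) (H' : ℕ → Cn n → Matrix (Fin n) (Fin n) ℂ)
    (ε : ℕ → ℝ) (Q : ℕ → Cn n → Matrix (Fin n) (Fin n) ℂ)
    (A : Cn n → Matrix (Fin n) (Fin n) ℂ), LimB T R κ H h A s S N φ H' ε Q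

/-- `Q` is a twisted Kähler–Einstein metric for the background `H'`, with `ε H' ≤ H`. -/
structure TkeS {n : ℕ} (T : Set (Cn n)) {G : Type u} [Group G]
    (R : G → Cn n → Cn n → Prop) (H : Cn n → Matrix (Fin n) (Fin n) ℂ) (ε : ℝ)
    (H' Q : Cn n → Matrix (Fin n) (Fin n) ℂ) : Prop where
  ket' : KEt T R H'
  eps : 0 < ε
  tke : TKE T R H' ε Q
  le : ∀ x ∈ T, (H x - (ε : ℂ) • H' x).PosSemidef

/-- RWT. Uniform weights: bounds of the densities, the bound of `S` by its average, bounds of the traces. -/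
def S_RWT : Prop := ∀ {n : ℕ}, 0 < n → ∀ (T : Set (Cn n)) {G : Type u} [Group G]
  (R : G → Cn n → Cn n → Prop) (H : Cn n → Matrix (Fin n) (Fin n) ℂ), KEt T R H →
  ∀ κ, IsPUE T R κ → ∃ K : ℝ, 0 < K ∧
  (∀ (ε : ℝ) (H' Q : Cn n → Matrix (Fin n) (Fin n) ℂ), TkeS T R H ε H' Q →
    QPF T R H K (fun x => Real.log (dn T κ H Q x)) ∧ 0 < vol T κ Q ∧
    (∀ x ∈ T, 0 < dn T κ H Q x ∧ dn T κ H Q x ≤ K) ∧
    ∀ S : Cn n → ℝ, InvF T R S → (∀ x ∈ T, 0 < S x) →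
      (∀ x ∈ T, -1 ≤ (trL Q (fun y => Real.log (S y)) x).re) →
      ∀ x ∈ T, S x ≤ K * avE T κ Q S) ∧
  ∀ C ⊆ T, IsCompact C → ∃ B : ℝ, ∀ (ε : ℝ) (H' Q : Cn n → Matrix (Fin n) (Fin n) ℂ),
    TkeS T R H ε H' Q → ∫ x in C, (Matrix.trace (Q x * (H x)⁻¹)).re ≤ B

/-- RAC. From averages to compact sets (as `AVC`). -/
def S_RAC : Prop := ∀ {n : ℕ} (T : Set (Cn n)) {G : Type u} [Group G]
  (R : G → Cn n → Cn n → Prop) (H : Cn n → Matrix (Fin n) (Fin n) ℂ), KEt T R H →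
  ∀ κ, IsPUE T R κ → ∀ C ⊆ T, IsCompact C → ∃ B : ℝ, 0 < B ∧
  ∀ Q : Cn n → Matrix (Fin n) (Fin n) ℂ, KEt T R Q → ∀ f : Cn n → ℝ, ContinuousOn f T →
  (∀ x ∈ T, 0 ≤ f x) → (∀ γ x y, R γ x y → f y = f x) →
  ∫ x in C, dn T κ H Q x * f x ≤ B * avE T κ Q f

/-- RVD. The function `v = S - ε tr (h Q⁻¹)`: `0 ≤ v`, `Δ v ≤ v`, and the error terms are `≤ v` in the mean. -/
def S_RVD : Prop := ∀ {n : ℕ} (T : Set (Cn n)) {G : Type u} [Group G]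
  (R : G → Cn n → Cn n → Prop) (H' h : Cn n → Matrix (Fin n) (Fin n) ℂ), RDat T R H' h →
  ∀ κ, IsPUE T R κ → ∀ (S ε : ℝ) (Q : Cn n → Matrix (Fin n) (Fin n) ℂ), 0 < ε →
  SupB T h H' S → TKE T R H' ε Q →
  InvF T R (fun x => S - ε * (Matrix.trace (h x * (Q x)⁻¹)).re) ∧
  (∀ x ∈ T, 0 ≤ S - ε * (Matrix.trace (h x * (Q x)⁻¹)).re) ∧
  (∀ x ∈ T, (trL Q (fun y => S - ε * (Matrix.trace (h y * (Q y)⁻¹)).re) x).re ≤
    S - ε * (Matrix.trace (h x * (Q x)⁻¹)).re) ∧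
  (∀ x ∈ T, 0 ≤ ε * AAt h Q x ∧ 0 ≤ ε * (- KKt h Q x)) ∧
  avE T κ Q (fun x => ε * AAt h Q x) ≤
    avE T κ Q (fun x => S - ε * (Matrix.trace (h x * (Q x)⁻¹)).re) ∧
  avE T κ Q (fun x => ε * (- KKt h Q x)) ≤
    avE T κ Q (fun x => S - ε * (Matrix.trace (h x * (Q x)⁻¹)).re)

/-- RLG. The logarithm: for `v ≥ 0`, `Δ v ≤ v`, `δ > 0`: `Δ log (1/(v + δ)) ≥ -1` and the energy of `log (v + δ)` is
at most `1`. -/
def S_RLG : Prop := ∀ {n : ℕ} (T : Set (Cn n)) {G : Type u} [Group G]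
  (R : G → Cn n → Cn n → Prop) (Q : Cn n → Matrix (Fin n) (Fin n) ℂ), KEt T R Q →
  ∀ κ, IsPUE T R κ → ∀ v : Cn n → ℝ, InvF T R v → (∀ x ∈ T, 0 ≤ v x) →
  (∀ x ∈ T, (trL Q v x).re ≤ v x) → ∀ δ : ℝ, 0 < δ →
  (∀ x ∈ T, -1 ≤ (trL Q (fun y => Real.log ((v y + δ)⁻¹)) x).re) ∧
  avE T κ Q (fun x => (∑ k, ∑ l, (Q x)⁻¹ l k *
    (cd k (fun y => ((Real.log (v y + δ) : ℝ) : ℂ)) x *
      conj (cd l (fun y => ((Real.log (v y + δ) : ℝ) : ℂ)) x))).re) ≤ 1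

/-- RVC. `E_j[v_j] → 0`. USES: RWT, RVD, RLG, `RVZ` of `Helper10/RBC/Goals.lean`. -/
def S_RVC : Prop := ∀ {n : ℕ}, 0 < n → ∀ (T : Set (Cn n)) {G : Type u} [Group G]
  (R : G → Cn n → Cn n → Prop) (H h : Cn n → Matrix (Fin n) (Fin n) ℂ), RDat T R H h →
  ∀ κ, IsPUE T R κ → ∀ (s : ℝ) (S N : ℕ → ℝ) (φ : ℕ → Cn n → ℝ)
    (H' : ℕ → Cn n → Matrix (Fin n) (Fin n) ℂ) (ε : ℕ → ℝ)
    (Q : ℕ → Cn n → Matrix (Fin n) (Fin n) ℂ), SeqR T R H h s S N φ H' ε Q →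
  Tendsto (fun j => avE T κ (Q j) fun x =>
    S j - ε j * (Matrix.trace (h x * (Q j x)⁻¹)).re) atTop (𝓝 0)

end Pool.Agent.Helper57.RBC
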