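import Pool.Agent.Helper57.RBC.AsmL
import Pool.Agent.Helper15.RBC.RLP
import Pool.Agent.Helper15.RBC.RPOST
import Pool.Agent.Helper15.RBC.NULR
import Pool.Agent.Helper15.RBC.RCLO
import Pool.Agent.Helper15.RBC.RNUL
import Pool.Agent.Helper15.RBC.RB1
import Pool.Agent.Helper15.RBC.RB3
import Pool.Agent.Helper15.RBC.RB4
import Pool.Agent.Helper15.RBC.RB5
import Pool.Agent.Helper15.RBC.RAV
import Pool.Agent.Helper15.RBC.RV0
import Pool.Agent.Helper15.RBC.RVB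
import Pool.Agent.Helper15.RBC.RPF
import Pool.Agent.Helper10.RBC.Rbl
import Pool.Agent.Helper10.RBC.Rbo
import Pool.Agent.Helper10.RBC.Rlv
import Pool.Agent.Helper10.RBC.Rnk
import Pool.Agent.Helper44.RBC.Rd
import Pool.Agent.Helper40.RBC.RAVL
import Pool.Agent.Helper45.RBC.CHP
import Pool.Agent.Helper45.RBC.AsmR

/-!
# RBC: assembly up to the volume positivity and the manifold link
-/

open Complex Metric Set Filter Topology MeasureTheory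
open scoped ContDiff ComplexConjugate ComplexOrder Manifold Matrix

namespace Pool.Agent.Helper57.RBC.Asm

open Pool.Agent.Helper95.Lin Pool.Agent.Helper16.Abund Pool.Agent.Helper92.Orb
  Pool.Agent.Helper10.SP Pool.Agent.Helper95.RK Pool.Agent.Helper57.HS
  Pool.Agent.Helper15.HS Pool.Agent.Helper10.HS Pool.Agent.Helper15.RK
  Pool.Agent.Helper10.SP.Asm Pool.Agent.Helper15.HS.Asm Pool.Agent.Helper15.GS
  Pool.Agent.Helper15.GS.Asm Pool.Agent.Helper57.RBC Pool.Agent.Helper15.RBC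
  Pool.Agent.Helper10.RBC Pool.Agent.Helper45.RBC

universe u

theorem t_RLP : S_RLP.{u} := rlp t_INVK t_MCAL t_ARRB
theorem t_CHP : S_CHP.{u} := chp t_IFN
theorem t_NULR : S_NULR := nulr t_WIRT t_MCAL t_CSY t_PARP
theorem t_RCLO : S_RCLO.{u} :=
  rclo t_MCAL t_WIRT t_CSY t_PARP t_PUE t_DETI Pool.Agent.Helper15.RK.Asm.t_ST2A
    Pool.Agent.Helper15.RK.Asm.t_POSK
theorem t_RLV : Pool.Agent.Helper10.RBC.S_RLV.{u} := Pool.Agent.Helper10.RBC.rlv t_RFAM t_RHOI t_MOMG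
theorem t_RAVL : Pool.Agent.Helper10.RBC.S_RAVL.{u} := Pool.Agent.Helper40.RBC.ravl t_NULL0 t_DETI
theorem t_RDL : Pool.Agent.Helper10.RBC.S_RDL := Pool.Agent.Helper44.RBC.rdl
theorem t_RDP : Pool.Agent.Helper10.RBC.S_RDP := Pool.Agent.Helper44.RBC.rdp
theorem t_RNK : Pool.Agent.Helper10.RBC.S_RNK.{u} := rnk t_CMPG t_RLV t_RAVL t_RDL t_TRC t_NULL0
theorem t_RBL : Pool.Agent.Helper10.RBC.S_RBL := rbl
theorem t_RBO : Pool.Agent.Helper10.RBC.S_RBO.{u} :=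
  rbo t_PUE t_WIRT t_MCAL t_CSY t_PARP t_IFN t_TRI t_NULL0 t_KETP
theorem t_RPF : S_RPF.{u} := rpf t_CSY t_PARP
theorem t_RVB : S_RVB.{u} := rvb t_RHOI t_MOMG t_RPF
theorem t_RB5 : S_RB5.{u} :=
  rb5 t_PUE t_MCAL t_CLG t_AAPS t_TRI t_NULL0 t_TRC t_KETP t_RPF t_RVB t_GAL
theorem t_RNUL : S_RNUL.{u} := rnul t_MCAL t_CSY t_RPF t_RB5 t_GAL

section AYG
variable (hAYG : S_AYG.{u})
include hAYG

theorem t_RLA : S_RLA.{u} := rla (t_RLC hAYG) t_RLP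
theorem t_RB1 : S_RB1.{u} := rb1 hAYG (t_REX hAYG) t_RHOI t_RPF
theorem t_RV0 : S_RV0.{u} := rv0 t_RHOI t_NULL0 t_RVB (t_RB1 hAYG)
theorem t_RAV : S_RAV.{u} := rav t_CMPG t_RVB (t_RV0 hAYG) t_TRC
theorem t_RB3 : S_RB3.{u} :=
  rb3 (t_SBG hAYG) t_DENS t_PUE t_NULL0 t_CMPG t_RPF (t_RB1 hAYG) t_GLG (t_RAV hAYG) t_RHB t_RHOI
theorem t_RB4 : S_RB4.{u} := rb4 (t_RB3 hAYG) hAYG t_RHOI
theorem t_RPOSTE : S_RPOSTE.{u} := rpost (t_RB4 hAYG) t_RB5 t_RNUL t_GAL t_RPF t_LMF t_DETI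

theorem t_RCOR_of (hRVP : Pool.Agent.Helper10.RBC.S_RVP.{u}) : S_RCOR.{u} :=
  rcor t_PUE (t_REX hAYG) (t_VOLP t_MOMG) (t_RLA hAYG) t_CHP t_NULR t_RCLO t_RNK hRVP t_KAPI
    t_RHOI

end AYG

end Pool.Agent.Helper57.RBC.Asm
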