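import Pool.Agent.Helper57.RBC.Goals2
import Pool.Agent.Helper19.HS.LPR

/-!
# RBC, the two halves of `S_RLA`: `S_RLC` (the weighted limit, helper57), `S_RLP` (its pointwise properties)
-/

open Complex Metric Set Filter Topology MeasureTheory
open scoped ContDiff ComplexConjugate ComplexOrder Manifold Matrix

namespace Pool.Agent.Helper57.RBC

open Pool.Agent.Helper95.Lin Pool.Agent.Helper16.Abund Pool.Agent.Helper92.Orb
  Pool.Agent.Helper10.SP Pool.Agent.Helper95.RK Pool.Agent.Helper57.HS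
  Pool.Agent.Helper15.HS Pool.Agent.Helper15.GS
open Pool.Agent.Helper10.RBC (dn)
open Pool.Agent.Helper95.HS (vol DensLe)

universe u v

/-- The weighted limit `A` of `B_j = ε_j h Q_j⁻¹`, and the error terms which tend to zero. -/
structure LimC {n : ℕ} (T : Set (Cn n)) {G : Type u} [Group G]
    (R : G → Cn n → Cn n → Prop) (κ : Cn n → ℝ) (H h A : Cn n → Matrix (Fin n) (Fin n) ℂ)
    (s : ℝ) (S N : ℕ → ℝ) (φ : ℕ → Cn n → ℝ) (H' : ℕ → Cn n → Matrix (Fin n) (Fin n) ℂ)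
    (ε : ℕ → ℝ) (Q : ℕ → Cn n → Matrix (Fin n) (Fin n) ℂ) : Prop where
  seq : SeqR T R H h s S N φ H' ε Q
  ctx : Pool.Agent.Helper19.HS.Ctx T h (fun j => dn T κ H (Q j))
    (fun j => Bep (ε j) h (Q j)) A
  holo : ∀ i j, DifferentiableOn ℂ (fun x => A x i j) T
  dinv : ∀ j γ x y, R γ x y → dn T κ H (Q j) y = dn T κ H (Q j) x
  dle : ∃ K : ℝ, 0 < K ∧ ∀ j, ∀ x ∈ T, dn T κ H (Q j) x ≤ K
  gB : ∀ C ⊆ T, IsCompact C → ∃ B : ℝ, ∀ j,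
    ∫ x in C, (Matrix.trace (Q j x * (h x)⁻¹)).re ≤ B
  v : ∀ C ⊆ T, IsCompact C → Tendsto (fun j => ∫ x in C, dn T κ H (Q j) x *
    (S j - ε j * (Matrix.trace (h x * (Q j x)⁻¹)).re)) atTop (𝓝 0)
  aa : ∀ C ⊆ T, IsCompact C → Tendsto (fun j => ∫ x in C, dn T κ H (Q j) x *
    (ε j * AAt h (Q j) x)) atTop (𝓝 0)
  kk : ∀ C ⊆ T, IsCompact C → Tendsto (fun j => ∫ x in C, dn T κ H (Q j) x *
    (ε j * (- KKt h (Q j) x))) atTop (𝓝 0)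

/-- RLC. The weighted limit exists. -/
def S_RLC : Prop := ∀ {n : ℕ}, 0 < n → ∀ (T : Set (Cn n)) {G : Type u} [Group G]
  (R : G → Cn n → Cn n → Prop) (H h : Cn n → Matrix (Fin n) (Fin n) ℂ), RDat T R H h →
  ∀ κ, IsPUE T R κ →
  ∃ (s : ℝ) (S N : ℕ → ℝ) (φ : ℕ → Cn n → ℝ) (H' : ℕ → Cn n → Matrix (Fin n) (Fin n) ℂ)
    (ε : ℕ → ℝ) (Q : ℕ → Cn n → Matrix (Fin n) (Fin n) ℂ)
    (A : Cn n → Matrix (Fin n) (Fin n) ℂ), LimC T R κ H h A s S N φ H' ε Q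

/-- RLP. Pointwise properties of the limit.
PROOF. `closed_cond` (`Helper57/RBC/Closed.lean`) for the continuous functions: psd: `Φ x X = - (hermi (X * h x) u u).re`, `E = 0`, for fixed `u`
(and `Ctx.herm`); tr: `Φ x X = ‖trace X - s‖`, `E_j = |S j - s| + (S j - ε tr (h Q⁻¹))` (`seq.S_ge`, `S_le`, `m_le`; `dle`); inv: `Ctx.nat` as at the end of
`Helper19/HS/LPR.lean`; crv: `Φ x X = |(crvP h (h⁻¹ X) (h⁻¹ X) x).re|`, at `X = B_j` it is `ε² |KKt| ≤ ε (-KKt)` (`ε ≤ 1`, `RVD`'s sign; `h⁻¹ B_j = ε Q⁻¹`, `RBC` on `Q⁻¹ Q⁻¹`, or use `gB`/`tend`);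
tor: `Φ x X = (FT (tors h x) (h⁻¹ X) (h⁻¹) (h x)).re` (`Helper57/RBC/Tor.lean`), at `B_j` it is `≤ tr (Q h⁻¹) · 4 ε AAt` (`Helper94.GS.tr_inv`, `FT_right`, `FT_nonneg`, `tors_le`) and bounded on `C`, so
`∫_C dn f_j → 0` by `Helper94.GS.tend`; `FT_zero` gives `Σ_k (h⁻¹ A) l k * tors k i p = 0`, multiply by `h`. -/
def S_RLP : Prop := ∀ {n : ℕ} (T : Set (Cn n)) {G : Type u} [Group G]
  (R : G → Cn n → Cn n → Prop) (H h : Cn n → Matrix (Fin n) (Fin n) ℂ), RDat T R H h →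
  ∀ κ, IsPUE T R κ →
  ∀ (A : Cn n → Matrix (Fin n) (Fin n) ℂ) (s : ℝ) (S N : ℕ → ℝ) (φ : ℕ → Cn n → ℝ)
    (H' : ℕ → Cn n → Matrix (Fin n) (Fin n) ℂ) (ε : ℕ → ℝ)
    (Q : ℕ → Cn n → Matrix (Fin n) (Fin n) ℂ), LimC T R κ H h A s S N φ H' ε Q →
  LimB T R κ H h A s S N φ H' ε Q

end Pool.Agent.Helper57.RBC
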