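import Pool.Agent.Helper57.RBC.Wts
import Pool.Agent.Helper94.HS.VENV
import Pool.Agent.Helper46.GS.GLG

/-!
# RBC: the functions `v_j` (RVD, RLG)
-/

open Complex Metric Set Filter Topology MeasureTheory
open scoped ContDiff ComplexConjugate ComplexOrder Manifold Matrix

namespace Pool.Agent.Helper57.RBC

open Pool.Agent.Helper95.Lin Pool.Agent.Helper16.Abund Pool.Agent.Helper92.Orb
  Pool.Agent.Helper10.SP Pool.Agent.Helper95.RK Pool.Agent.Helper57.HS
  Pool.Agent.Helper15.HS Pool.Agent.Helper15.GS Pool.Agent.Helper16.HS.AYTP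
open Pool.Agent.Helper10.RBC (dn)
open Pool.Agent.Helper95.HS (vol DensLe)
open Pool.Agent.Helper38.HS.QPD (kint LM_congr LM_sub_const cont_trace_mul trace_mul_nonneg')

universe u

theorem kintQ {n : ℕ} {T : Set (Cn n)} (hT : IsOpen T) {κ : Cn n → ℝ} (hκ : TestF T κ)
    {Q : Cn n → Matrix (Fin n) (Fin n) ℂ} (hQ : ContinuousOn (fun x => (Q x).det.re) T)
    {g : Cn n → ℝ} (hg : ContinuousOn g T) :
    IntegrableOn (fun x => κ x * (Q x).det.re * g x) T := by
  have := kint hT hκ (hQ.mul hg)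
  refine this.congr_fun (fun x _ => ?_) hT.measurableSet
  simp only [mul_assoc, Pi.mul_apply]

/-- Averages and inequalities up to Laplacians. -/
theorem avE_le {n : ℕ} {T : Set (Cn n)} (hT : IsOpen T) {κ : Cn n → ℝ} (hκ : TestF T κ)
    (hκ0 : ∀ x, 0 ≤ κ x) {Q : Cn n → Matrix (Fin n) (Fin n) ℂ}
    (hQ : ContinuousOn (fun x => (Q x).det.re) T) (hQ0 : ∀ x ∈ T, 0 ≤ (Q x).det.re)
    {f g w : Cn n → ℝ} {c : ℝ} (hf : ContinuousOn f T) (hg : ContinuousOn g T)
    (hw : ContinuousOn w T) (hw0 : ∫ x in T, κ x * (Q x).det.re * w x = 0)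
    (h : ∀ x ∈ T, f x ≤ g x + c * w x) : avE T κ Q f ≤ avE T κ Q g := by
  unfold avE itg
  refine div_le_div_of_nonneg_right ?_ (setIntegral_nonneg hT.measurableSet fun x hx => ?_)
  · have i1 := kintQ hT hκ hQ hf
    have i2 := kintQ hT hκ hQ hg
    have i3 := (kintQ hT hκ hQ hw).const_mul c
    have h1 : ∫ x in T, κ x * (Q x).det.re * f x ≤
        ∫ x in T, (κ x * (Q x).det.re * g x + c * (κ x * (Q x).det.re * w x)) := by
      refine setIntegral_mono_on i1 (i2.add i3) hT.measurableSet fun x hx => ?_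
      have h2 : 0 ≤ κ x * (Q x).det.re := mul_nonneg (hκ0 x) (hQ0 x hx)
      have h3 := mul_le_mul_of_nonneg_left (h x hx) h2
      refine h3.trans (le_of_eq ?_)
      ring
    rw [integral_add i2 i3, integral_const_mul, hw0, mul_zero, add_zero] at h1
    exact h1
  · exact mul_nonneg (mul_nonneg (hκ0 x) (hQ0 x hx)) zero_le_one

theorem trL_sub_mul {n : ℕ} (hWIRT : S_WIRT) {T : Set (Cn n)} (hT : IsOpen T) {f : Cn n → ℝ}
    (hf : ContDiffOn ℝ ∞ f T) (S ε : ℝ) (Q : Cn n → Matrix (Fin n) (Fin n) ℂ) {x : Cn n}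
    (hx : x ∈ T) : (trL Q (fun y => S - ε * f y) x).re = - ε * (trL Q f x).re := by
  have e1 : (fun y => S - ε * f y) = fun y => (-ε) * f y + 1 * S := by
    funext y; ring
  have e2 : LM (fun y => S - ε * f y) x = ((-ε : ℝ) : ℂ) • LM f x := by
    rw [e1, Pool.Agent.Helper94.HS.LM_lin hWIRT hT hf (g := fun _ => S) contDiffOn_const (-ε) 1 hx,
      Pool.Agent.Helper94.HS.LM_const, smul_zero, add_zero]
  unfold trL
  rw [e2, Matrix.mul_smul, Matrix.trace_smul, smul_eq_mul, Complex.re_ofReal_mul]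

theorem rvd (hWIRT : S_WIRT) (hDETI : S_DETI.{u}) (hINVK : S_INVK.{u})
    (hTRI : Pool.Agent.Helper95.HS.S_TRI.{u}) (hKETP : Pool.Agent.Helper95.HS.S_KETP.{u})
    (hCL : S_CL) (hRMON : S_RMON.{u}) : S_RVD.{u} := by
  intro n T G _ R H' h D κ hκ S ε Q hε hS hQ
  have hT := D.ket.et.isOpen
  have hQk := hQ.ket
  have hD := hDETI T R Q hQk
  have hdc : ContinuousOn (fun x => (Q x).det.re) T := hD.2.1.continuousOn
  have hd0 : ∀ x ∈ T, 0 ≤ (Q x).det.re := fun x hx => (hD.1 x hx).2.1.le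
  have htI : InvF T R (fun x => (Matrix.trace (h x * (Q x)⁻¹)).re) :=
    (hTRI T R Q hQk).1 h D.her.smooth D.her.inv
  have hvI : InvF T R (fun x => S - ε * (Matrix.trace (h x * (Q x)⁻¹)).re) := by
    refine ⟨contDiffOn_const.sub (contDiffOn_const.mul htI.1), fun γ x y hxy => ?_⟩
    have := htI.2 γ x y hxy
    simp only at this ⊢
    rw [this]
  have hv0 : ∀ x ∈ T, 0 ≤ S - ε * (Matrix.trace (h x * (Q x)⁻¹)).re := fun x hx =>
    sub_nonneg.2 (hRMON T R H' h D S hS ε Q hε hQ x hx)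
  obtain ⟨hKc, hAc, -, -⟩ := hINVK T R D.ket.et h Q D.her (her_ket hQk)
  have hKK : ∀ x ∈ T, KKt h Q x ≤ 0 := fun x hx =>
    D.rbc x hx _ (hQk.posDef x hx).posSemidef.inv
  have hcl : ∀ x ∈ T, 0 ≤ AAt h Q x ∧
      (trL Q (fun y => (Matrix.trace (h y * (Q y)⁻¹)).re) x).re =
    - (Matrix.trace (h x * (Q x)⁻¹)).re +
      ε * (Matrix.trace (H' x * (Q x)⁻¹ * h x * (Q x)⁻¹)).re - KKt h Q x + AAt h Q x := by
    intro x hx
    obtain ⟨h1, h2⟩ := hCL T hT Q h (fun x => (ε : ℂ) • H' x) (chf_ket hQk) hQk.posDef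
      hQ.eq D.her.smooth D.her.posDef x hx
    refine ⟨h1, ?_⟩
    rw [h2, Matrix.smul_mul, Matrix.smul_mul, Matrix.smul_mul, Matrix.trace_smul, smul_eq_mul,
      Complex.re_ofReal_mul]
  -- the arithmetic-geometric inequality
  have hag : ∀ x ∈ T, 2 * (ε * (Matrix.trace (h x * (Q x)⁻¹)).re) ≤
      S + ε * (ε * (Matrix.trace (H' x * (Q x)⁻¹ * h x * (Q x)⁻¹)).re) := by
    intro x hx
    obtain ⟨ht0, hb0, ha0, hcs⟩ := cs_tr (D.ket.posDef x hx) (D.her.posDef x hx).posSemidef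
      (hQk.posDef x hx)
    have hsb := hS x hx
    set t := (Matrix.trace (h x * (Q x)⁻¹)).re
    set a := (Matrix.trace (H' x * (Q x)⁻¹ * h x * (Q x)⁻¹)).re
    set b := (Matrix.trace (h x * (H' x)⁻¹)).re
    have hS0 : 0 ≤ S := hb0.trans hsb
    have hα : 0 ≤ ε * (ε * a) := by positivity
    have h1 : (ε * t) ^ 2 ≤ (ε * (ε * a)) * S := by
      calc (ε * t) ^ 2 = ε * ε * t ^ 2 := by ring
        _ ≤ ε * ε * (a * b) := mul_le_mul_of_nonneg_left hcs (by positivity)
        _ ≤ ε * ε * (a * S) := mul_le_mul_of_nonneg_left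
            (mul_le_mul_of_nonneg_left hsb ha0) (by positivity)
        _ = (ε * (ε * a)) * S := by ring
    have h2 : (2 * (ε * t)) ^ 2 ≤ (S + ε * (ε * a)) ^ 2 := by
      nlinarith [sq_nonneg (S - ε * (ε * a))]
    exact (pow_le_pow_iff_left₀ (by positivity) (by positivity) (by norm_num)).1 h2
  have htrc : ContinuousOn (fun x => (trL Q (fun y => (Matrix.trace (h y * (Q y)⁻¹)).re) x).re)
      T := ((hKETP T R D.ket.et).2.2 Q _ hQk htI).1.1.continuousOn
  have htr0 := (hTRI T R Q hQk).2 κ hκ _ htI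
  refine ⟨hvI, hv0, ?_, ?_, ?_, ?_⟩
  · intro x hx
    rw [trL_sub_mul hWIRT hT htI.1 S ε Q hx, (hcl x hx).2]
    have h1 := (hcl x hx).1
    have h2 := hKK x hx
    have h3 := hag x hx
    nlinarith [mul_nonneg hε.le h1, mul_nonneg hε.le (neg_nonneg.2 h2)]
  · intro x hx
    exact ⟨mul_nonneg hε.le (hcl x hx).1, mul_nonneg hε.le (neg_nonneg.2 (hKK x hx))⟩
  · refine avE_le hT hκ.test hκ.nonneg hdc hd0 (continuousOn_const.mul hAc)
      hvI.1.continuousOn htrc htr0 (c := ε) fun x hx => ?_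
    have h0 := (hcl x hx).2
    have h1 := (hcl x hx).1
    have h2 := hKK x hx
    have h3 := hag x hx
    rw [h0]
    nlinarith [mul_nonneg hε.le h1, mul_nonneg hε.le (neg_nonneg.2 h2)]
  · refine avE_le hT hκ.test hκ.nonneg hdc hd0 (continuousOn_const.mul hKc.neg)
      hvI.1.continuousOn htrc htr0 (c := ε) fun x hx => ?_
    have h0 := (hcl x hx).2
    have h1 := (hcl x hx).1
    have h2 := hKK x hx
    have h3 := hag x hx
    rw [h0]
    nlinarith [mul_nonneg hε.le h1, mul_nonneg hε.le (neg_nonneg.2 h2)]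

theorem quad_nonneg {n : ℕ} {K : Matrix (Fin n) (Fin n) ℂ} (hK : K.PosSemidef) (a : Fin n → ℂ) :
    0 ≤ (∑ k, ∑ l, K l k * (a k * conj (a l))).re := by
  have h1 : ∑ k, ∑ l, K l k * (a k * conj (a l)) = star a ⬝ᵥ (K *ᵥ a) := by
    rw [Finset.sum_comm]
    simp only [dotProduct, Matrix.mulVec, Pi.star_apply, Finset.mul_sum]
    refine Finset.sum_congr rfl fun l _ => Finset.sum_congr rfl fun k _ => ?_
    rw [Complex.star_def]
    ring
  rw [h1]
  exact (Complex.nonneg_iff.1 (hK.dotProduct_mulVec_nonneg a)).1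

theorem rlg (hCHN : Pool.Agent.Helper95.HS.S_CHN) (hWIRT : S_WIRT) (hDETI : S_DETI.{u})
    (hNULL0 : Pool.Agent.Helper95.HS.S_NULL0.{u})
    (hTRI : Pool.Agent.Helper95.HS.S_TRI.{u}) (hKETP : Pool.Agent.Helper95.HS.S_KETP.{u}) :
    S_RLG.{u} := by
  intro n T G _ R Q hQ κ hκ v hv hv0 hvl δ hδ
  have hT := hQ.et.isOpen
  have hD := hDETI T R Q hQ
  have hdc : ContinuousOn (fun x => (Q x).det.re) T := hD.2.1.continuousOn
  have hd0 : ∀ x ∈ T, 0 ≤ (Q x).det.re := fun x hx => (hD.1 x hx).2.1.le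
  have hV : 0 < vol T κ Q := (hNULL0 T R Q hQ κ hκ).1
  set F : ℝ → ℝ := fun t => Real.log (t + δ) with hF
  have hFs : ContDiffOn ℝ ∞ F (Ioi (-δ)) := by
    intro t ht
    have : t + δ ≠ 0 := by
      have : -δ < t := ht
      linarith
    exact ((contDiffAt_id.add contDiffAt_const).log this).contDiffWithinAt
  have hmap : MapsTo v T (Ioi (-δ)) := fun x hx => by
    have := hv0 x hx
    show -δ < v x
    linarith
  obtain ⟨hgs, hch⟩ := hCHN T hT v F (Ioi (-δ)) hv.1 isOpen_Ioi hFs hmap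
  have hgI : InvF T R (fun y => Real.log (v y + δ)) := by
    refine ⟨hgs, fun γ x y hxy => ?_⟩
    have := hv.2 γ x y hxy
    simp only at this ⊢
    rw [this]
  have hF1 : ∀ t : ℝ, deriv F t = (t + δ)⁻¹ := by
    intro t
    rw [hF, deriv_comp_add_const (f := Real.log)]
    exact Real.deriv_log _
  have hF1' : deriv F = fun t => (t + δ)⁻¹ := funext hF1
  have hF2 : ∀ t : ℝ, deriv (deriv F) t = - ((t + δ) ^ 2)⁻¹ := by
    intro t
    rw [hF1', deriv_comp_add_const (f := fun s : ℝ => s⁻¹)]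
    exact deriv_inv
  have e1 : ∀ (u : Cn n → ℝ) (x : Cn n), trL Q u x = ∑ k, ∑ l, (Q x)⁻¹ l k * LM u x k l := by
    intro u x
    unfold trL
    rw [Finset.sum_comm]
    simp only [Matrix.trace, Matrix.diag, Matrix.mul_apply]
  -- the energy density
  set E : Cn n → ℝ := fun x => (∑ k, ∑ l, (Q x)⁻¹ l k *
    (cd k (fun y => ((Real.log (v y + δ) : ℝ) : ℂ)) x *
      conj (cd l (fun y => ((Real.log (v y + δ) : ℝ) : ℂ)) x))).re with hE
  have hE0 : ∀ x ∈ T, 0 ≤ E x := fun x hx =>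
    quad_nonneg (hQ.posDef x hx).posSemidef.inv _
  have key : ∀ x ∈ T, (trL Q (fun y => Real.log (v y + δ)) x).re =
      (v x + δ)⁻¹ * (trL Q v x).re - E x := by
    intro x hx
    obtain ⟨hc1, hc2⟩ := hch x hx
    have h1 : trL Q (fun y => Real.log (v y + δ)) x = (((v x + δ)⁻¹ : ℝ) : ℂ) * trL Q v x -
        ∑ k, ∑ l, (Q x)⁻¹ l k *
        (cd k (fun y => ((Real.log (v y + δ) : ℝ) : ℂ)) x *
          conj (cd l (fun y => ((Real.log (v y + δ) : ℝ) : ℂ)) x)) := by
      rw [e1, e1, Finset.mul_sum, ← Finset.sum_sub_distrib]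
      refine Finset.sum_congr rfl fun k _ => ?_
      rw [Finset.mul_sum, ← Finset.sum_sub_distrib]
      refine Finset.sum_congr rfl fun l _ => ?_
      have a1 : cd k (fun y => ((Real.log (v y + δ) : ℝ) : ℂ)) x =
          (((v x + δ)⁻¹ : ℝ) : ℂ) * cd k (fun y => ((v y : ℝ) : ℂ)) x := by
        have := hc1 k
        rw [hF1] at this
        exact this
      have a2 : cd l (fun y => ((Real.log (v y + δ) : ℝ) : ℂ)) x =
          (((v x + δ)⁻¹ : ℝ) : ℂ) * cd l (fun y => ((v y : ℝ) : ℂ)) x := by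
        have := hc1 l
        rw [hF1] at this
        exact this
      have a3 : LM (fun y => Real.log (v y + δ)) x k l =
          (((v x + δ)⁻¹ : ℝ) : ℂ) * LM v x k l +
          ((- ((v x + δ) ^ 2)⁻¹ : ℝ) : ℂ) * (cd k (fun y => ((v y : ℝ) : ℂ)) x *
          conj (cd l (fun y => ((v y : ℝ) : ℂ)) x)) := by
        have := hc2 k l
        rw [hF1, hF2] at this
        exact this
      have a4 : (((v x + δ) ^ 2)⁻¹ : ℝ) = (v x + δ)⁻¹ * (v x + δ)⁻¹ := by
        rw [← mul_inv, sq]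
      rw [a1, a2, a3, map_mul, Complex.conj_ofReal, Complex.ofReal_neg, a4, Complex.ofReal_mul]
      ring
    rw [h1, Complex.sub_re, Complex.re_ofReal_mul]
  have hb : ∀ x ∈ T, (v x + δ)⁻¹ * (trL Q v x).re ≤ 1 := by
    intro x hx
    have h0 := hv0 x hx
    have h1 : 0 < v x + δ := by linarith
    have h2 := hvl x hx
    rw [inv_mul_le_iff₀ h1]
    linarith
  have hneg : ∀ x ∈ T, (trL Q (fun y => Real.log ((v y + δ)⁻¹)) x).re =
      - (trL Q (fun y => Real.log (v y + δ)) x).re := by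
    intro x hx
    have h1 : (fun y => Real.log ((v y + δ)⁻¹)) = fun y => 0 - 1 * Real.log (v y + δ) := by
      funext y
      rw [Real.log_inv]
      ring
    rw [h1, trL_sub_mul hWIRT hT hgs 0 1 Q hx]
    ring
  refine ⟨fun x hx => ?_, ?_⟩
  · rw [hneg x hx, key x hx]
    have := hb x hx
    have := hE0 x hx
    linarith
  · have htrc : ContinuousOn (fun x => (trL Q (fun y => Real.log (v y + δ)) x).re)
        T := ((hKETP T R hQ.et).2.2 Q _ hQ hgI).1.1.continuousOn
    have htrv : ContinuousOn (fun x => (trL Q v x).re)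
        T := ((hKETP T R hQ.et).2.2 Q _ hQ hv).1.1.continuousOn
    have htr0 := (hTRI T R Q hQ).2 κ hκ _ hgI
    have hEc : ContinuousOn E T := by
      have h1 : ContinuousOn (fun x => (v x + δ)⁻¹ * (trL Q v x).re -
          (trL Q (fun y => Real.log (v y + δ)) x).re) T := by
        refine ContinuousOn.sub (ContinuousOn.mul ?_ htrv) htrc
        refine (hv.1.continuousOn.add continuousOn_const).inv₀ fun x hx => ?_
        have := hv0 x hx
        show v x + δ ≠ 0
        linarith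
      refine h1.congr fun x hx => ?_
      simp only
      rw [key x hx]
      ring
    have h1 : avE T κ Q E ≤ avE T κ Q (fun _ => 1) := by
      refine avE_le hT hκ.test hκ.nonneg hdc hd0 hEc continuousOn_const htrc htr0 (c := -1)
        fun x hx => ?_
      have := key x hx
      have := hb x hx
      linarith
    have h2 : avE T κ Q (fun _ => 1) = 1 := by
      unfold avE
      rw [itg_one]
      exact div_self hV.ne'
    rw [h2] at h1
    exact h1

end Pool.Agent.Helper57.RBC
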