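import Pool.Agent.Helper57.RBC.Goals2
import Pool.Agent.Helper57.RBC.Exist
import Pool.Agent.Helper38.HS.QPD

/-!
# RBC: uniform weights (RWT), from averages to compact sets (RAC)
-/

open Complex Metric Set Filter Topology MeasureTheory
open scoped ContDiff ComplexConjugate ComplexOrder Manifold Matrix

namespace Pool.Agent.Helper57.RBC

open Pool.Agent.Helper95.Lin Pool.Agent.Helper16.Abund Pool.Agent.Helper92.Orb
  Pool.Agent.Helper10.SP Pool.Agent.Helper95.RK Pool.Agent.Helper57.HS
  Pool.Agent.Helper15.HS Pool.Agent.Helper15.GS Pool.Agent.Helper16.HS.AYTP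
open Pool.Agent.Helper10.RBC (dn)
open Pool.Agent.Helper95.HS (vol DensLe)
open Pool.Agent.Helper38.HS.QPD (kint LM_congr LM_sub_const cont_trace_mul trace_mul_nonneg')

universe u

theorem itg_one {n : ℕ} (T : Set (Cn n)) (κ : Cn n → ℝ) (Q : Cn n → Matrix (Fin n) (Fin n) ℂ) :
    itg T κ Q (fun _ => 1) = vol T κ Q := by
  unfold itg vol
  simp only [mul_one]

theorem avE_nonneg {n : ℕ} {T : Set (Cn n)} (hT : IsOpen T) {κ : Cn n → ℝ} (hκ : ∀ x, 0 ≤ κ x)
    {Q : Cn n → Matrix (Fin n) (Fin n) ℂ} (hQ : ∀ x ∈ T, 0 ≤ (Q x).det.re) {f : Cn n → ℝ}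
    (hf : ∀ x ∈ T, 0 ≤ f x) : 0 ≤ avE T κ Q f := by
  unfold avE itg
  refine div_nonneg (setIntegral_nonneg hT.measurableSet fun x hx => ?_)
    (setIntegral_nonneg hT.measurableSet fun x hx => ?_)
  · exact mul_nonneg (mul_nonneg (hκ x) (hQ x hx)) (hf x hx)
  · exact mul_nonneg (mul_nonneg (hκ x) (hQ x hx)) zero_le_one

theorem det_re_pos {n : ℕ} {Q : Matrix (Fin n) (Fin n) ℂ} (hQ : Q.PosDef) : 0 < Q.det.re :=
  (Complex.pos_iff.1 hQ.det_pos).1

theorem rwt (hRHOI : S_RHOI.{u}) (hRHB : S_RHB.{u}) (hLOCB : S_LOCB.{u}) (hDETI : S_DETI.{u})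
    (hTRI : Pool.Agent.Helper95.HS.S_TRI.{u}) (hKETP : Pool.Agent.Helper95.HS.S_KETP.{u})
    (hNULL0 : Pool.Agent.Helper95.HS.S_NULL0.{u})
    (hDENS : Pool.Agent.Helper95.HS.S_DENS.{u}) (hSBG : Pool.Agent.Helper95.HS.S_SBG.{u}) :
    S_RWT.{u} := by
  intro n hn T G _ R H hK κ hκ
  have hET := hK.et
  have hTo := hET.isOpen
  have hHer : HerT T R H := ⟨hK.posDef, hK.smooth, hK.inv⟩
  obtain ⟨hD1, hD2, hD3, -, -, -⟩ := hDETI T R H hK
  obtain ⟨hR1, hR2, hR3, -, hR5⟩ := hRHOI T R H hET hHer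
  obtain ⟨K1, hK1, hRB⟩ := hRHB T R H hET hHer (rho H) hR1.herm
    (fun i j => (hR1.smooth i j).continuousOn) hR2
  set a : ℝ := K1 + 1 with ha
  obtain ⟨K2, hK2, hDb⟩ := hDENS T R H hK κ hκ a
  obtain ⟨C', hSb⟩ := hSBG hn T R H hK κ hκ a K2
  have hdetc : ContinuousOn (fun x => (H x).det.re) T := hD2.continuousOn
  set A0 : ℝ := ∫ x in T, κ x * (H x).det.re with hA0
  have hA0nn : 0 ≤ A0 := by
    refine setIntegral_nonneg hTo.measurableSet fun x hx => ?_
    exact mul_nonneg (hκ.nonneg x) (hD1 x hx).2.1.le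
  -- the basic facts
  have base : ∀ (ε : ℝ) (H' Q : Cn n → Matrix (Fin n) (Fin n) ℂ), TkeS T R H ε H' Q →
      InvF T R (fun x => ld Q x - ld H x) ∧
      (∀ x ∈ T, Q x - LM (fun y => ld Q y - ld H y) x = (ε : ℂ) • H' x + rho H x) ∧
      (∀ x ∈ T, ((a : ℂ) • H x - ((ε : ℂ) • H' x + rho H x)).PosSemidef) := by
    intro ε H' Q hS
    have hQHer : HerT T R Q := ⟨hS.tke.ket.posDef, hS.tke.ket.smooth, hS.tke.ket.inv⟩
    obtain ⟨hI, hrho⟩ := hR5 Q hQHer
    refine ⟨hI, fun x hx => ?_, fun x hx => ?_⟩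
    · have h1 := hrho x hx
      rw [hS.tke.eq x hx] at h1
      have h2 : LM (fun y => ld Q y - ld H y) x = Q x - (ε : ℂ) • H' x - rho H x := by
        rw [h1]; abel
      rw [h2]; abel
    · have e : (a : ℂ) • H x - ((ε : ℂ) • H' x + rho H x) =
          ((K1 : ℂ) • H x - rho H x) + (H x - (ε : ℂ) • H' x) := by
        rw [ha]
        push_cast
        module
      rw [e]
      exact (hRB x hx).2.add (hS.le x hx)
  set K : ℝ := a + K2 + |C'| + (A0 + 1) with hKdef
  have hKpos : 0 < K := by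
    have := abs_nonneg C'
    rw [hKdef]; linarith
  refine ⟨K, hKpos, ?_, ?_⟩
  · intro ε H' Q hS
    obtain ⟨hI, hb1, hb2⟩ := base ε H' Q hS
    have hQk := hS.tke.ket
    have hV : 0 < vol T κ Q := (hNULL0 T R Q hQk κ hκ).1
    have p1 : ∀ y ∈ T, ((a : ℂ) • H y - (Q y - LM (fun y => ld Q y - ld H y) y)).PosSemidef := by
      intro y hy
      rw [hb1 y hy]
      exact hb2 y hy
    have p2 : ∀ y ∈ T, ((a : ℂ) • H y + LM (fun y => ld Q y - ld H y) y).PosSemidef := by
      intro y hy
      have e : (a : ℂ) • H y + LM (fun y => ld Q y - ld H y) y =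
          ((a : ℂ) • H y - (Q y - LM (fun y => ld Q y - ld H y) y)) + Q y := by abel
      rw [e]
      exact (p1 y hy).add (hQk.posDef y hy).posSemidef
    have hdens := hDb Q hQk p2
    have hdQ : ∀ x ∈ T, 0 < (Q x).det.re := fun x hx => det_re_pos (hQk.posDef x hx)
    have hdH : ∀ x ∈ T, 0 < (H x).det.re := fun x hx => (hD1 x hx).2.1
    have hdn : ∀ x ∈ T, 0 < dn T κ H Q x := fun x hx =>
      div_pos (hdQ x hx) (mul_pos hV (hdH x hx))
    have hdnle : ∀ x ∈ T, dn T κ H Q x ≤ K2 := by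
      intro x hx
      unfold dn
      rw [div_le_iff₀ (mul_pos hV (hdH x hx)), ← mul_assoc]
      exact hdens x hx
    have hu : ∀ x ∈ T, Real.log (dn T κ H Q x) = (ld Q x - ld H x) - Real.log (vol T κ Q) := by
      intro x hx
      unfold dn ld
      rw [Real.log_div (hdQ x hx).ne' (mul_pos hV (hdH x hx)).ne',
        Real.log_mul hV.ne' (hdH x hx).ne']
      ring
    have hInv : InvF T R (fun x => Real.log (dn T κ H Q x)) := by
      refine ⟨?_, fun γ x y hxy => ?_⟩
      · refine ContDiffOn.congr (f := fun x => (ld Q x - ld H x) - Real.log (vol T κ Q)) ?_ hu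
        exact hI.1.sub contDiffOn_const
      · have hm := hET.mem γ x y hxy
        have h := hI.2 γ x y hxy
        simp only at h ⊢
        rw [hu y hm.2, hu x hm.1, h]
    have hint : ∫ x in T, κ x * (H x).det.re * dn T κ H Q x = 1 := by
      have h4 : ∫ x in T, κ x * (H x).det.re * dn T κ H Q x =
          ∫ x in T, (vol T κ Q)⁻¹ * (κ x * (Q x).det.re) := by
        refine setIntegral_congr_fun hTo.measurableSet fun x hx => ?_
        have h5 := (hdH x hx).ne'
        have h6 := hV.ne'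
        unfold dn
        field_simp
      rw [h4, integral_const_mul]
      exact inv_mul_cancel₀ hV.ne'
    refine ⟨⟨hInv, ?_, ?_, ?_⟩, hV, fun x hx => ⟨hdn x hx, (hdnle x hx).trans ?_⟩, ?_⟩
    · intro x hx
      rw [LM_congr hTo hu hx, LM_sub_const]
      have e : LM (fun y => ld Q y - ld H y) x + (K : ℂ) • H x =
          ((a : ℂ) • H x + LM (fun y => ld Q y - ld H y) x) + ((K - a : ℝ) : ℂ) • H x := by
        push_cast
        module
      rw [e]
      refine (p2 x hx).add ((hK.posDef x hx).posSemidef.smul ?_)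
      refine Complex.zero_le_real.2 ?_
      have := abs_nonneg C'
      rw [hKdef]; linarith
    · intro x hx
      have h1 : Real.log (dn T κ H Q x) ≤ dn T κ H Q x := (Real.log_le_sub_one_of_pos
        (hdn x hx)).trans (by linarith)
      have := abs_nonneg C'
      have := hdnle x hx
      rw [hKdef]; linarith
    · by_contra hcon
      push Not at hcon
      have h1 : (1 : ℝ) ≤ Real.exp (-K) * A0 := by
        rw [← hint, hA0, ← integral_const_mul]
        refine integral_mono_of_nonneg ?_ ?_ ?_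
        · refine (ae_restrict_iff' hTo.measurableSet).2 (Eventually.of_forall fun x hx => ?_)
          exact mul_nonneg (mul_nonneg (hκ.nonneg x) (hdH x hx).le) (hdn x hx).le
        · exact (kint hTo hκ.test hdetc).const_mul _
        · refine (ae_restrict_iff' hTo.measurableSet).2 (Eventually.of_forall fun x hx => ?_)
          have h2 := hcon x hx
          have h3 : dn T κ H Q x ≤ Real.exp (-K) := by
            rw [← Real.exp_log (hdn x hx)]
            exact (Real.exp_lt_exp.2 h2).le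
          have h4 : 0 ≤ κ x * (H x).det.re := mul_nonneg (hκ.nonneg x) (hdH x hx).le
          calc κ x * (H x).det.re * dn T κ H Q x ≤ κ x * (H x).det.re * Real.exp (-K) :=
                mul_le_mul_of_nonneg_left h3 h4
            _ = Real.exp (-K) * (κ x * (H x).det.re) := by ring
      have h5 : Real.exp (-K) * A0 < 1 := by
        have h6 : K < Real.exp K := by
          have := Real.add_one_le_exp K
          linarith
        have h7 : A0 < Real.exp K := by
          have := abs_nonneg C'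
          refine lt_of_le_of_lt ?_ h6
          rw [hKdef]; linarith
        rw [Real.exp_neg, inv_mul_lt_iff₀ (Real.exp_pos K)]
        linarith
      linarith
    · have := abs_nonneg C'
      rw [hKdef]; linarith
    · intro S hSi hSpos hSl x hx
      have h1 := hSb Q (fun y => ld Q y - ld H y) S hQk hI p1 hdens hSi hSpos hSl x hx
      have hav : ∫ y in T, κ y * (Q y).det.re * S y = vol T κ Q * avE T κ Q S := by
        unfold avE
        rw [itg_one]
        unfold itg
        field_simp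
      have hav0 : 0 ≤ avE T κ Q S :=
        avE_nonneg hTo hκ.nonneg (fun x hx => (hdQ x hx).le) (fun x hx => (hSpos x hx).le)
      rw [hav] at h1
      have h2 : S x * vol T κ Q ≤ (C' * avE T κ Q S) * vol T κ Q := by
        refine h1.trans (le_of_eq ?_); ring
      have h3 : S x ≤ C' * avE T κ Q S := le_of_mul_le_mul_right h2 hV
      refine h3.trans (mul_le_mul_of_nonneg_right ?_ hav0)
      have h4 := le_abs_self C'
      rw [hKdef]; linarith
  · intro C hCT hC
    obtain ⟨B3, hB3, hloc3⟩ := hLOCB T R H hK κ hκ C hCT hC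
    refine ⟨B3 * (a * n * A0), fun ε H' Q hS => ?_⟩
    obtain ⟨hI, hb1, hb2⟩ := base ε H' Q hS
    have hQk := hS.tke.ket
    have hfc : ContinuousOn (fun x => (Matrix.trace (Q x * (H x)⁻¹)).re) T :=
      cont_trace_mul (fun i j => (hQk.smooth i j).continuousOn)
        (fun i j => (hD3 i j).continuousOn)
    have hfi : InvF T R (fun x => (Matrix.trace (Q x * (H x)⁻¹)).re) :=
      (hTRI T R H hK).1 Q hQk.smooth hQk.inv
    have h1 := hloc3 (fun x => (Matrix.trace (Q x * (H x)⁻¹)).re) hfc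
      (fun x hx => trace_mul_nonneg' (hQk.posDef x hx).posSemidef (hD1 x hx).2.2.1.posSemidef)
      (fun γ x y hxy => hfi.2 γ x y hxy)
    refine h1.trans (mul_le_mul_of_nonneg_left ?_ hB3.le)
    have htr := (hTRI T R H hK).2 κ hκ _ hI
    have htrc : ContinuousOn (fun x => (trL H (fun y => ld Q y - ld H y) x).re) T :=
      ((hKETP T R hET).2.2 H _ hK hI).1.1.continuousOn
    have i1 : IntegrableOn (fun x => κ x * (H x).det.re *
        (trL H (fun y => ld Q y - ld H y) x).re) T := by
      have := kint hTo hκ.test (hdetc.mul htrc)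
      refine this.congr_fun (fun x _ => ?_) hTo.measurableSet
      simp only [mul_assoc, Pi.mul_apply]
    have i0 : IntegrableOn (fun x => κ x * (H x).det.re *
        (Matrix.trace (Q x * (H x)⁻¹)).re) T := by
      have := kint hTo hκ.test (hdetc.mul hfc)
      refine this.congr_fun (fun x _ => ?_) hTo.measurableSet
      simp only [mul_assoc, Pi.mul_apply]
    have i2 : IntegrableOn (fun x => (a * n) * (κ x * (H x).det.re)) T :=
      (kint hTo hκ.test hdetc).const_mul _
    have h2 : ∫ x in T, κ x * (H x).det.re * (Matrix.trace (Q x * (H x)⁻¹)).re ≤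
        ∫ x in T, (κ x * (H x).det.re * (trL H (fun y => ld Q y - ld H y) x).re +
          (a * n) * (κ x * (H x).det.re)) := by
      refine setIntegral_mono_on i0 (i1.add i2) hTo.measurableSet fun x hx => ?_
      have h3 : 0 ≤ κ x * (H x).det.re := mul_nonneg (hκ.nonneg x) (hD1 x hx).2.1.le
      have h4 : (Matrix.trace (Q x * (H x)⁻¹)).re ≤
          (trL H (fun y => ld Q y - ld H y) x).re + a * n := by
        have h5 := tr_mul_nonneg (hb2 x hx) (hD1 x hx).2.2.1.posSemidef
        rw [← hb1 x hx, Matrix.sub_mul, Matrix.sub_mul, Matrix.trace_sub, Matrix.trace_sub,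
          Matrix.smul_mul, (hD1 x hx).2.2.2, Matrix.trace_smul, Matrix.trace_one,
          Fintype.card_fin, Matrix.trace_mul_comm (LM _ x)] at h5
        simp only [Complex.sub_re, smul_eq_mul, Complex.re_ofReal_mul, Complex.natCast_re] at h5
        unfold trL
        linarith
      calc κ x * (H x).det.re * (Matrix.trace (Q x * (H x)⁻¹)).re ≤
          κ x * (H x).det.re * ((trL H (fun y => ld Q y - ld H y) x).re + a * n) :=
            mul_le_mul_of_nonneg_left h4 h3
        _ = _ := by ring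
    refine h2.trans (le_of_eq ?_)
    rw [integral_add i1 i2, htr, zero_add, integral_const_mul]

theorem rac (hLOCB : S_LOCB.{u}) (hDETI : S_DETI.{u})
    (hNULL0 : Pool.Agent.Helper95.HS.S_NULL0.{u}) : S_RAC.{u} := by
  intro n T G _ R H hK κ hκ C hCT hC
  have hET := hK.et
  have hTo := hET.isOpen
  obtain ⟨hD1, hD2, -, -, hD5, -⟩ := hDETI T R H hK
  obtain ⟨B, hB, hloc⟩ := hLOCB T R H hK κ hκ C hCT hC
  refine ⟨B, hB, fun Q hQ f hfc hf0 hfi => ?_⟩
  obtain ⟨hQ1, hQ2, -, -, hQ5, -⟩ := hDETI T R Q hQ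
  have hV : 0 < vol T κ Q := (hNULL0 T R Q hQ κ hκ).1
  have hdc : ContinuousOn (dn T κ H Q) T := by
    unfold dn
    refine hQ2.continuousOn.div (continuousOn_const.mul hD2.continuousOn) fun x hx => ?_
    exact (mul_pos hV (hD1 x hx).2.1).ne'
  have hdinv : ∀ γ x y, R γ x y → dn T κ H Q y = dn T κ H Q x := by
    intro γ x y hxy
    obtain ⟨τ, U, W, hU, hW, hxU, hyW, hUT, hWT, hdiff, hinj, hmaps, hdet, hiff⟩ :=
      hET.loc γ x y hxy
    have hArr : Arr R U τ := ⟨hU, hdiff, γ, fun x' hx' =>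
      (hiff x' hx' (τ x') (hmaps hx')).2 rfl⟩
    have hτx : τ x = y := ((hiff x hxU y hyW).1 hxy).symm
    have e1 := (hD5 U τ hArr x hxU).1
    have e2 := (hQ5 U τ hArr x hxU).1
    rw [hτx] at e1 e2
    have hd : ‖(fderiv ℂ τ x).det‖ ^ 2 ≠ 0 := by
      have := norm_pos_iff.2 (hdet x hxU)
      positivity
    have hy : y ∈ T := hWT hyW
    have h1 := (hD1 y hy).2.1.ne'
    have h2 := hV.ne'
    unfold dn
    rw [e1, e2, ← mul_assoc, mul_div_mul_right _ _ hd]
  have h1 := hloc (fun x => dn T κ H Q x * f x) (hdc.mul hfc)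
    (fun x hx => mul_nonneg (div_pos (hQ1 x hx).2.1 (mul_pos hV (hD1 x hx).2.1)).le (hf0 x hx))
    (fun γ x y hxy => by
      show dn T κ H Q y * f y = dn T κ H Q x * f x
      rw [hdinv γ x y hxy, hfi γ x y hxy])
  refine h1.trans (mul_le_mul_of_nonneg_left (le_of_eq ?_) hB.le)
  unfold avE
  rw [itg_one]
  unfold itg
  rw [eq_div_iff hV.ne', mul_comm, ← integral_const_mul]
  refine setIntegral_congr_fun hTo.measurableSet fun x hx => ?_
  have h5 := (hD1 x hx).2.1.ne'
  have h6 := hV.ne'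
  show vol T κ Q * (κ x * (H x).det.re * (dn T κ H Q x * f x)) = κ x * (Q x).det.re * f x
  unfold dn
  field_simp

end Pool.Agent.Helper57.RBC
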